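import Pool.Agent.K4H52.AC.Lift
import Pool.Agent.Helper610.Bohr.Basic

/-!
# Coefficient bounds
-/

open Complex MeasureTheory Filter Topology Metric Finset
open Pool.Agent.Helper610.Bohr
open scoped ENNReal NNReal

namespace Pool.Agent.K4H52.AC

lemma ps_fps {P : ℂ → ℂ} {A : ℕ → ℂ} (h : PS P A) :
    HasFPowerSeriesOnBall P (FormalMultilinearSeries.ofScalars ℂ A) 0 1 := by
  refine ⟨?_, one_pos, ?_⟩
  · refine ENNReal.le_of_forall_nnreal_lt (fun r hr => ?_)
    have hr1 : (r:ℝ) < 1 := by exact_mod_cast hr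
    refine FormalMultilinearSeries.le_radius_of_tendsto (l := 0) _ ?_
    have h1 := (h (r:ℂ) (by simp [hr1])).summable.tendsto_atTop_zero.norm
    rw [norm_zero] at h1
    refine h1.congr (fun n => ?_)
    rw [FormalMultilinearSeries.ofScalars_norm, norm_mul, norm_pow]
    simp
  · intro y hy
    have hy' : y ∈ ball (0:ℂ) 1 := by
      have : Metric.eball (0:ℂ) 1 = ball 0 1 := by
        rw [← ENNReal.ofReal_one, Metric.eball_ofReal]
      rw [← this]; exact hy
    have := h y (by simpa using hy')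
    rw [zero_add, FormalMultilinearSeries.ofScalars_apply_eq']
    simpa [smul_eq_mul] using this

lemma ps_diff {P : ℂ → ℂ} {A : ℕ → ℂ} (h : PS P A) : DifferentiableOn ℂ P (ball 0 1) := by
  have h1 := (ps_fps h).differentiableOn
  rwa [← ENNReal.ofReal_one, Metric.eball_ofReal] at h1

lemma ps_coeff {P : ℂ → ℂ} {A : ℕ → ℂ} (h : PS P A) (n : ℕ) : coeff P n = A n := by
  have h2 := PS.unique h (PS.of_diff (ps_diff h))
  rw [h2]

lemma ps_congr {f g : ℂ → ℂ} {a : ℕ → ℂ} (hf : PS f a) (h : ∀ z ∈ ball (0 : ℂ) 1, g z = f z) :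
    PS g a := hf.congr (fun z hz => h z (by simpa using hz))

lemma ps_theta {f : ℂ → ℂ} (hf : DifferentiableOn ℂ f (ball 0 1)) :
    PS (fun z => z * deriv f z) (fun n => n * coeff f n) := by
  have h1 : PS (deriv f) (coeff (deriv f)) := PS.of_diff (hf.deriv isOpen_ball)
  have h2 := h1.shift
  have h3 : shiftSeq (coeff (deriv f)) = (fun n : ℕ => (n : ℂ) * coeff f n) := by
    funext n
    cases n with
    | zero => simp [shiftSeq]
    | succ n =>
      simp only [shiftSeq, coeff]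
      rw [← iteratedDeriv_succ', Nat.factorial_succ]
      have h4 : ((n : ℂ) + 1) ≠ 0 := by exact_mod_cast Nat.succ_ne_zero n
      have h5 : (n.factorial : ℂ) ≠ 0 := by exact_mod_cast n.factorial_ne_zero
      push_cast
      field_simp
  rwa [h3] at h2

lemma ps_sum {ι : Type*} (s : Finset ι) {f : ι → ℂ → ℂ} {a : ι → ℕ → ℂ}
    (h : ∀ i ∈ s, PS (f i) (a i)) : PS (fun z => ∑ i ∈ s, f i z) (fun n => ∑ i ∈ s, a i n) := by
  intro z hz
  have := hasSum_sum (fun i hi => h i hi z hz)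
  refine this.congr_fun (fun n => ?_)
  rw [Finset.sum_mul]

lemma ps_pow_mul {f : ℂ → ℂ} {a : ℕ → ℂ} (h : PS f a) (j : ℕ) :
    PS (fun z => z ^ j * f z) (fun n => if n < j then 0 else a (n - j)) := by
  induction j with
  | zero => simpa using h
  | succ j ih =>
    have h1 := ih.shift
    have h2 : shiftSeq (fun n => if n < j then 0 else a (n - j)) =
        (fun n => if n < j + 1 then 0 else a (n - (j + 1))) := by
      funext n
      cases n with
      | zero => simp [shiftSeq]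
      | succ n =>
        change (if n < j then 0 else a (n - j)) = (if n + 1 < j + 1 then 0 else a (n + 1 - (j + 1)))
        rw [Nat.add_sub_add_right]
        simp only [Nat.add_lt_add_iff_right]
    rw [h2] at h1
    refine ps_congr h1 (fun z _ => ?_)
    ring

/-! formal series -/

lemma mk_conv (a b : ℕ → ℂ) : PowerSeries.mk (conv a b) = PowerSeries.mk a * PowerSeries.mk b := by
  ext n
  simp [PowerSeries.coeff_mul, conv]

lemma conv_assoc (a b c : ℕ → ℂ) : conv (conv a b) c = conv a (conv b c) := by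
  have h : PowerSeries.mk (conv (conv a b) c) = PowerSeries.mk (conv a (conv b c)) := by
    rw [mk_conv, mk_conv, mk_conv, mk_conv, mul_assoc]
  funext n
  have := congrArg (PowerSeries.coeff n) h
  simpa using this

lemma conv_comm (a b : ℕ → ℂ) : conv a b = conv b a := by
  have h : PowerSeries.mk (conv a b) = PowerSeries.mk (conv b a) := by
    rw [mk_conv, mk_conv, mul_comm]
  funext n
  have := congrArg (PowerSeries.coeff n) h
  simpa using this

lemma theta_conv (a b : ℕ → ℂ) (n : ℕ) : (n : ℂ) * conv a b n =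
    conv (fun n => (n : ℂ) * a n) b n + conv a (fun n => (n : ℂ) * b n) n := by
  unfold conv
  rw [Finset.mul_sum, ← Finset.sum_add_distrib]
  refine Finset.sum_congr rfl (fun kl hkl => ?_)
  rw [Finset.HasAntidiagonal.mem_antidiagonal] at hkl
  rw [← hkl]
  push_cast
  ring

/-- uniqueness of the solution of `θ a = c a` -/
lemma rec_unique {c a b : ℕ → ℂ} (hc : c 0 = 0) (ha : ∀ n : ℕ, (n : ℂ) * a n = conv c a n)
    (hb : ∀ n : ℕ, (n : ℂ) * b n = conv c b n) (h0 : a 0 = b 0) : a = b := by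
  funext n
  induction n using Nat.strong_induction_on with
  | _ n ih =>
    rcases Nat.eq_zero_or_pos n with h | h
    · rw [h, h0]
    · have h1 : conv c a n = conv c b n := by
        unfold conv
        refine Finset.sum_congr rfl (fun kl hkl => ?_)
        rw [Finset.HasAntidiagonal.mem_antidiagonal] at hkl
        by_cases hk : kl.1 = 0
        · rw [hk, hc]; simp
        · rw [ih kl.2 (by omega)]
      have h2 := (ha n).trans (h1.trans (hb n).symm)
      have h3 : (n : ℂ) ≠ 0 := by exact_mod_cast h.ne'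
      exact mul_left_cancel₀ h3 h2

/-- the solution of `θ x = c x`, `x 0 = 1` -/
noncomputable def sol (c : ℕ → ℂ) : ℕ → ℂ
  | 0 => 1
  | n + 1 => (∑ i : Fin (n + 1), c (i + 1) * sol c (n - i)) / ((n : ℂ) + 1)
decreasing_by omega

lemma sol_rec {c : ℕ → ℂ} (hc : c 0 = 0) (n : ℕ) : (n : ℂ) * sol c n = conv c (sol c) n := by
  cases n with
  | zero => simp [conv, hc]
  | succ n =>
    have h4 : ((n : ℂ) + 1) ≠ 0 := by exact_mod_cast Nat.succ_ne_zero n
    have h1 : ((n + 1 : ℕ) : ℂ) * sol c (n + 1) = ∑ i : Fin (n + 1), c (i + 1) * sol c (n - i) := by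
      rw [sol]; push_cast; field_simp
    rw [h1]
    unfold conv
    rw [Finset.Nat.sum_antidiagonal_succ, hc, zero_mul, zero_add,
      Finset.Nat.sum_antidiagonal_eq_sum_range_succ (fun i j => c (i + 1) * sol c j),
      ← Fin.sum_univ_eq_sum_range (fun i => c (i + 1) * sol c (n - i)) (n + 1)]

lemma sol_zero (c : ℕ → ℂ) : sol c 0 = 1 := by rw [sol]

lemma sol_le {c : ℕ → ℂ} (h : ∀ n, ‖c n‖ ≤ 1) (n : ℕ) : ‖sol c n‖ ≤ 1 := by
  induction n using Nat.strong_induction_on with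
  | _ n ih =>
    cases n with
    | zero => rw [sol_zero]; simp
    | succ n =>
      rw [sol, norm_div]
      have h1 : ‖(n : ℂ) + 1‖ = (n : ℝ) + 1 := by
        have : ((n : ℂ) + 1) = (((n : ℝ) + 1 : ℝ) : ℂ) := by push_cast; ring
        rw [this, Complex.norm_real, Real.norm_eq_abs, abs_of_nonneg (by positivity)]
      rw [h1, div_le_one (by positivity)]
      calc ‖∑ i : Fin (n + 1), c (i + 1) * sol c (n - i)‖ ≤
            ∑ i : Fin (n + 1), ‖c (i + 1) * sol c (n - i)‖ := norm_sum_le _ _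
        _ ≤ ∑ i : Fin (n + 1), (1 : ℝ) := by
            refine Finset.sum_le_sum (fun i _ => ?_)
            rw [norm_mul]
            have h2 := h (i + 1)
            have h3 := ih (n - i) (by omega)
            nlinarith [norm_nonneg (c (i + 1)), norm_nonneg (sol c (n - i))]
        _ = (n : ℝ) + 1 := by simp

lemma sol_sq {c : ℕ → ℂ} (hc : c 0 = 0) (n : ℕ) :
    (n : ℂ) * conv (sol c) (sol c) n = conv (fun n => 2 * c n) (conv (sol c) (sol c)) n := by
  rw [theta_conv]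
  have h1 : (fun n : ℕ => (n : ℂ) * sol c n) = conv c (sol c) := funext (sol_rec hc)
  rw [h1, conv_comm (sol c) (conv c (sol c)), conv_assoc]
  have h2 : conv (fun n => 2 * c n) (conv (sol c) (sol c)) n =
      2 * conv c (conv (sol c) (sol c)) n := by
    unfold conv
    rw [Finset.mul_sum]
    refine Finset.sum_congr rfl (fun kl _ => ?_)
    ring
  rw [h2]; ring

/-! Carathéodory -/

lemma carath {P : ℂ → ℂ} {p : ℕ → ℂ} (hP : PS P p) (hd : DifferentiableOn ℂ P (ball 0 1))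
    (hre : ∀ z : ℂ, ‖z‖ < 1 → 0 ≤ (P z).re) (hp0 : p 0 = 1) {n : ℕ} (hn : n ≠ 0) : ‖p n‖ ≤ 2 := by
  have h := herglotz_bound hP hd hre hp0 1 (n + 1) (fun _ => 1) (fun _ => zero_le_one)
    (fun _ k => if k = n then 1 else 0) 2 (fun ζ hζ => by
      rw [Finset.sum_range_one, Finset.sum_eq_single n]
      · simp [hn, hζ]
      · intro b _ hb; simp [hb]
      · intro h; exact absurd (Finset.mem_range.mpr (Nat.lt_succ_self n)) h)
  rw [Finset.sum_range_one, Finset.sum_eq_single n] at h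
  · simpa using h
  · intro b _ hb; simp [hb]
  · intro h; exact absurd (Finset.mem_range.mpr (Nat.lt_succ_self n)) h

/-! contraction -/

lemma contraction {Ω : ℂ → ℂ} {o : ℕ → ℂ} (hΩ : PS Ω o) (hb : ∀ z : ℂ, ‖z‖ < 1 → ‖Ω z‖ ≤ 1)
    (x : ℕ → ℂ) (N : ℕ) :
    ∑ k ∈ range (N + 1), ‖conv o x k‖ ^ 2 ≤ ∑ k ∈ range (N + 1), ‖x k‖ ^ 2 := by
  set y : ℕ → ℂ := fun k => if k < N + 1 then x k else 0 with hy
  have hy1 : ∀ k, k < N + 1 → y k = x k := fun k hk => if_pos hk
  have hy2 : ∀ k, ¬ k < N + 1 → y k = 0 := fun k hk => if_neg hk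
  clear_value y
  set A : ℂ → ℂ := fun z => ∑ k ∈ range (N + 1), x k * z ^ k with hA
  have hAy : PS A y := by
    intro z _
    have h1 : HasSum (fun k => y k * z ^ k) (∑ k ∈ range (N + 1), y k * z ^ k) := by
      refine hasSum_sum_of_ne_finset_zero (fun k hk => ?_)
      rw [Finset.mem_range] at hk
      rw [hy2 k hk, zero_mul]
    have h2 : ∑ k ∈ range (N + 1), y k * z ^ k = A z := by
      refine Finset.sum_congr rfl (fun k hk => ?_)
      rw [Finset.mem_range] at hk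
      rw [hy1 k hk]
    rwa [h2] at h1
  have hAc : Continuous A := by
    rw [hA]; fun_prop
  have hAd := ps_diff hAy
  have hFd : DifferentiableOn ℂ (fun z => Ω z * A z) (ball 0 1) := (ps_diff hΩ).mul hAd
  have hF : PS (fun z => Ω z * A z) (conv o y) := hΩ.mul hAy
  have hconv : ∀ k ∈ range (N + 1), conv o y k = conv o x k := by
    intro k hk
    rw [Finset.mem_range] at hk
    unfold conv
    refine Finset.sum_congr rfl (fun kl hkl => ?_)
    rw [Finset.HasAntidiagonal.mem_antidiagonal] at hkl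
    rw [hy1 kl.2 (by omega)]
  have key : ∀ ρ : ℝ, 0 ≤ ρ → ρ < 1 →
      ∑ k ∈ range (N + 1), ‖conv o x k‖ ^ 2 * ρ ^ (2 * k) ≤ ∑ k ∈ range (N + 1), ‖x k‖ ^ 2 := by
    intro ρ h0 h1
    have p1 := hF.parseval hFd h0 h1
    have p2 := hAy.parseval hAd h0 h1
    have i1 := integral_norm_sq_le hFd h0 h1 (M := fun θ => ‖A (pt ρ θ)‖ ^ 2)
      ((hAc.comp (continuous_pt ρ)).norm.pow 2) (fun θ => by
        simp only [norm_mul]
        have h2 := hb (pt ρ θ) (by rw [norm_pt h0]; exact h1)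
        rw [mul_pow]
        have h3 : ‖Ω (pt ρ θ)‖ ^ 2 ≤ 1 := pow_le_one₀ (norm_nonneg _) h2
        nlinarith [sq_nonneg ‖A (pt ρ θ)‖])
    have s1 : ∑ k ∈ range (N + 1), ‖conv o y k‖ ^ 2 * ρ ^ (2 * k) ≤
        (2 * Real.pi)⁻¹ * ∫ θ in (0 : ℝ)..(2 * Real.pi), ‖Ω (pt ρ θ) * A (pt ρ θ)‖ ^ 2 :=
      sum_le_hasSum _ (fun k _ => by positivity) p1
    have s2 : (2 * Real.pi)⁻¹ * ∫ θ in (0 : ℝ)..(2 * Real.pi), ‖A (pt ρ θ)‖ ^ 2 ≤
        ∑ k ∈ range (N + 1), ‖x k‖ ^ 2 := by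
      have h3 : HasSum (fun n => ‖y n‖ ^ 2 * ρ ^ (2 * n))
          (∑ k ∈ range (N + 1), ‖y k‖ ^ 2 * ρ ^ (2 * k)) := by
        refine hasSum_sum_of_ne_finset_zero (fun k hk => ?_)
        rw [Finset.mem_range] at hk
        rw [hy2 k hk]; simp
      rw [p2.unique h3]
      refine Finset.sum_le_sum (fun k hk => ?_)
      rw [Finset.mem_range] at hk
      have h4 : ρ ^ (2 * k) ≤ 1 := pow_le_one₀ h0 h1.le
      rw [hy1 k hk]
      nlinarith [sq_nonneg ‖x k‖]
    calc ∑ k ∈ range (N + 1), ‖conv o x k‖ ^ 2 * ρ ^ (2 * k)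
        = ∑ k ∈ range (N + 1), ‖conv o y k‖ ^ 2 * ρ ^ (2 * k) :=
          Finset.sum_congr rfl (fun k hk => by rw [hconv k hk])
      _ ≤ _ := s1
      _ ≤ _ := i1
      _ ≤ _ := s2
  have hlim : Tendsto (fun ρ : ℝ => ∑ k ∈ range (N + 1), ‖conv o x k‖ ^ 2 * ρ ^ (2 * k)) (𝓝[<] 1)
      (𝓝 (∑ k ∈ range (N + 1), ‖conv o x k‖ ^ 2)) := by
    have : Tendsto (fun ρ : ℝ => ∑ k ∈ range (N + 1), ‖conv o x k‖ ^ 2 * ρ ^ (2 * k)) (𝓝 1)
        (𝓝 (∑ k ∈ range (N + 1), ‖conv o x k‖ ^ 2 * 1 ^ (2 * k))) := by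
      apply Continuous.tendsto; fun_prop
    simp only [one_pow, mul_one] at this
    exact this.mono_left nhdsWithin_le_nhds
  refine le_of_tendsto hlim ?_
  filter_upwards [Ioo_mem_nhdsLT (zero_lt_one' ℝ)] with ρ hρ
  exact key ρ hρ.1.le hρ.2

lemma conv_bound {Ω : ℂ → ℂ} {o : ℕ → ℂ} (hΩ : PS Ω o) (hb : ∀ z : ℂ, ‖z‖ < 1 → ‖Ω z‖ ≤ 1)
    {x : ℕ → ℂ} (hx : ∀ n, ‖x n‖ ≤ 1) (N : ℕ) : ‖conv o (conv x x) N‖ ≤ (N : ℝ) + 1 := by
  rw [← conv_assoc]
  have h1 := contraction hΩ hb x N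
  have h2 : ∑ k ∈ range (N + 1), ‖x k‖ ^ 2 ≤ (N : ℝ) + 1 := by
    calc ∑ k ∈ range (N + 1), ‖x k‖ ^ 2 ≤ ∑ k ∈ range (N + 1), (1 : ℝ) :=
          Finset.sum_le_sum (fun k _ => pow_le_one₀ (norm_nonneg _) (hx k))
      _ = (N : ℝ) + 1 := by simp
  have h3 : ∑ kl ∈ antidiagonal N, ‖conv o x kl.1‖ ^ 2 = ∑ k ∈ range (N + 1), ‖conv o x k‖ ^ 2 :=
    Finset.Nat.sum_antidiagonal_eq_sum_range_succ (fun i _ => ‖conv o x i‖ ^ 2) N
  have h4 : ∑ kl ∈ antidiagonal N, ‖x kl.2‖ ^ 2 = ∑ k ∈ range (N + 1), ‖x k‖ ^ 2 := by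
    rw [Finset.Nat.sum_antidiagonal_eq_sum_range_succ (fun _ j => ‖x j‖ ^ 2) N]
    exact Finset.sum_range_reflect (fun j => ‖x j‖ ^ 2) (N + 1) ▸ by
      refine Finset.sum_congr rfl (fun k hk => ?_)
      rw [Nat.add_sub_cancel]
  calc ‖conv (conv o x) x N‖ ≤ ∑ kl ∈ antidiagonal N, ‖conv o x kl.1 * x kl.2‖ := norm_sum_le _ _
    _ ≤ ∑ kl ∈ antidiagonal N, (‖conv o x kl.1‖ ^ 2 / 2 + ‖x kl.2‖ ^ 2 / 2) := by
        refine Finset.sum_le_sum (fun kl _ => ?_)
        rw [norm_mul]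
        nlinarith [sq_nonneg (‖conv o x kl.1‖ - ‖x kl.2‖)]
    _ = (∑ kl ∈ antidiagonal N, ‖conv o x kl.1‖ ^ 2) / 2 + (∑ kl ∈ antidiagonal N, ‖x kl.2‖ ^ 2) / 2 := by
        rw [Finset.sum_add_distrib, Finset.sum_div, Finset.sum_div]
    _ ≤ (N : ℝ) + 1 := by rw [h3, h4]; linarith

end Pool.Agent.K4H52.AC
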