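import Pool.Agent.K4H52.AC.Coef

/-!
# Coefficients of `G ∘ ω · P`
-/

open Complex MeasureTheory Filter Topology Metric Finset
open Pool.Agent.Helper610.Bohr

namespace Pool.Agent.K4H52.AC

lemma dslope_diff {f : ℂ → ℂ} (hf : DifferentiableOn ℂ f (ball 0 1)) :
    DifferentiableOn ℂ (dslope f 0) (ball 0 1) :=
  (Complex.differentiableOn_dslope (ball_mem_nhds (0 : ℂ) one_pos)).mpr hf

lemma eq_mul_dslope {f : ℂ → ℂ} (z : ℂ) : f z = f 0 + z * dslope f 0 z := by
  have h := sub_smul_dslope f 0 z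
  rw [sub_zero, smul_eq_mul] at h
  rw [h]; ring

/-- tail of a power series -/
lemma tail {G : ℂ → ℂ} {g : ℕ → ℂ} (h : PS G g) (N : ℕ) : ∃ H : ℂ → ℂ, PS H (fun k => g (k + N)) ∧
    ∀ z : ℂ, G z = ∑ j ∈ range N, g j * z ^ j + z ^ N * H z := by
  induction N with
  | zero => exact ⟨G, by simpa using h, fun z => by simp⟩
  | succ N ih =>
    obtain ⟨H, hH, hG⟩ := ih
    have hd := ps_diff hH
    have h1 : PS (dslope H 0) (coeff (dslope H 0)) := PS.of_diff (dslope_diff hd)
    have hH0 : H 0 = g N := by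
      have h2 := hH 0 (by simp)
      have h3 : HasSum (fun k : ℕ => g (k + N) * (0 : ℂ) ^ k) (g (0 + N) * (0 : ℂ) ^ 0) := by
        refine hasSum_single 0 (fun k hk => ?_)
        rw [zero_pow hk, mul_zero]
      have := h2.unique h3
      simpa using this
    have h2 := (PS.const (g N)).add h1.shift
    have h3 : PS H (fun n => (if n = 0 then g N else 0) + shiftSeq (coeff (dslope H 0)) n) := by
      refine h2.congr (fun z _ => ?_)
      rw [← hH0]; exact eq_mul_dslope z
    have h4 := PS.unique hH h3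
    refine ⟨dslope H 0, ?_, ?_⟩
    · have h5 : coeff (dslope H 0) = (fun k => g (k + (N + 1))) := by
        funext k
        have := congrFun h4 (k + 1)
        simp only [Nat.add_eq_zero_iff, one_ne_zero, and_false, if_false, zero_add, shiftSeq] at this
        rw [← this]
        congr 1; ring
      rwa [h5] at h1
    · intro z
      rw [hG z, Finset.sum_range_succ, eq_mul_dslope (f := H) z, hH0]
      ring

theorem comp_bound {ω G P : ℂ → ℂ} {g x : ℕ → ℂ} {γ : ℕ → ℝ} (hω : DifferentiableOn ℂ ω (ball 0 1))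
    (hω0 : ω 0 = 0) (hωm : ∀ z ∈ ball (0 : ℂ) 1, ω z ∈ ball (0 : ℂ) 1) (hG : PS G g)
    (hg : ∀ n, g n = (γ n : ℂ)) (hγ : ∀ n, 0 ≤ γ n) (hP : PS P (conv x x)) (hx : ∀ n, ‖x n‖ ≤ 1)
    (n : ℕ) : ‖coeff (fun z => G (ω z) * P z) n‖ ≤ ∑ j ∈ range (n + 1), γ j * (((n - j : ℕ) : ℝ) + 1) := by
  set Ω := dslope ω 0 with hΩ
  have hΩd : DifferentiableOn ℂ Ω (ball 0 1) := dslope_diff hω
  have hΩn : ∀ z : ℂ, ‖z‖ < 1 → ‖Ω z‖ ≤ 1 := by
    intro z hz
    have h := Complex.norm_dslope_le_div_of_mapsTo_ball hω (R₂ := 1) (fun w hw => by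
      rw [hω0]; exact ball_subset_closedBall (hωm w hw)) (z := z) (by simpa using hz)
    simpa using h
  have hωΩ : ∀ z, ω z = z * Ω z := by
    intro z
    have := eq_mul_dslope (f := ω) z
    rw [hω0, zero_add] at this
    exact this
  obtain ⟨H, hH, hGH⟩ := tail hG (n + 1)
  have hΩjd : ∀ j : ℕ, DifferentiableOn ℂ (fun z => Ω z ^ j) (ball 0 1) := fun j => hΩd.pow j
  have hΩj : ∀ j : ℕ, PS (fun z => Ω z ^ j) (coeff (fun z => Ω z ^ j)) := fun j =>
    PS.of_diff (hΩjd j)
  have hΩjn : ∀ j : ℕ, ∀ z : ℂ, ‖z‖ < 1 → ‖Ω z ^ j‖ ≤ 1 := by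
    intro j z hz
    rw [norm_pow]
    exact pow_le_one₀ (norm_nonneg _) (hΩn z hz)
  -- the terms
  have hterm : ∀ j : ℕ, PS (fun z => g j * (z ^ j * (Ω z ^ j * P z)))
      (fun n => g j * (if n < j then 0 else conv (coeff (fun z => Ω z ^ j)) (conv x x) (n - j))) :=
    fun j => (ps_pow_mul ((hΩj j).mul hP) j).const_mul (g j)
  have hsum := ps_sum (range (n + 1)) (fun j _ => hterm j)
  have hrd : DifferentiableOn ℂ (fun z => Ω z ^ (n + 1) * H (ω z) * P z) (ball 0 1) :=
    ((hΩjd (n + 1)).mul ((ps_diff hH).comp hω hωm)).mul (ps_diff hP)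
  have hrem := ps_pow_mul (PS.of_diff hrd) (n + 1)
  have htot := hsum.add hrem
  have hfin : PS (fun z => G (ω z) * P z) _ := htot.congr (fun z _ => by
    rw [hGH (ω z), add_mul, Finset.sum_mul]
    congr 1
    · refine Finset.sum_congr rfl (fun j _ => ?_)
      rw [hωΩ z]; ring
    · rw [hωΩ z]; ring)
  rw [ps_coeff hfin n]
  have h0 : (if n < n + 1 then (0 : ℂ) else coeff (fun z => Ω z ^ (n + 1) * H (ω z) * P z) (n - (n + 1))) = 0 :=
    if_pos (Nat.lt_succ_self n)
  simp only [h0, add_zero]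
  refine (norm_sum_le _ _).trans (Finset.sum_le_sum (fun j hj => ?_))
  rw [Finset.mem_range] at hj
  rw [if_neg (by omega), norm_mul, hg j, Complex.norm_real, Real.norm_eq_abs, abs_of_nonneg (hγ j)]
  exact mul_le_mul_of_nonneg_left (conv_bound (hΩj j) (hΩjn j) hx (n - j)) (hγ j)

/-! injectivity on convex sets -/

lemma inj_convex {S : Set ℂ} (hS : Convex ℝ S) {F F' : ℂ → ℂ} (h : ∀ z ∈ S, HasDerivAt F (F' z) z)
    (hr : ∀ z ∈ S, 0 < (F' z).re) : Set.InjOn F S := by
  intro a ha b hb hab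
  by_contra hne
  have hd : b - a ≠ 0 := sub_ne_zero.mpr (Ne.symm hne)
  have hseg : ∀ t ∈ Set.Icc (0 : ℝ) 1, a + t * (b - a) ∈ S := by
    intro t ht
    have := hS ha hb (a := 1 - t) (b := t) (by linarith [ht.2]) ht.1 (by ring)
    have e : (1 - t) • a + t • b = a + t * (b - a) := by
      simp only [Complex.real_smul]; push_cast; ring
    rwa [e] at this
  have hder : ∀ t ∈ Set.Icc (0 : ℝ) 1, HasDerivAt (fun t : ℝ => (F (a + t * (b - a)) / (b - a)).re)
      (F' (a + t * (b - a))).re t := by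
    intro t ht
    have d1 : HasDerivAt (fun z : ℂ => a + z * (b - a)) (b - a) (t : ℂ) := by
      simpa using ((hasDerivAt_id (t : ℂ)).mul_const (b - a)).const_add a
    have d3 := HasDerivAt.comp (t : ℂ) (h _ (hseg t ht)) d1
    have d4 := (d3.div_const (b - a)).comp_ofReal
    have d5 := Complex.reCLM.hasFDerivAt.comp_hasDerivAt t d4
    refine d5.congr_deriv ?_
    simp only [Complex.reCLM_apply]
    congr 1
    field_simp
  obtain ⟨c, hc, hc2⟩ := exists_hasDerivAt_eq_slope _ _ (zero_lt_one' ℝ)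
    (fun t ht => (hder t ht).continuousAt.continuousWithinAt)
    (fun t ht => hder t (Set.Ioo_subset_Icc_self ht))
  have hpos := hr _ (hseg c (Set.Ioo_subset_Icc_self hc))
  simp only [Complex.ofReal_one, one_mul, Complex.ofReal_zero, zero_mul, add_zero,
    add_sub_cancel, hab, sub_self, zero_div] at hc2
  rw [hc2] at hpos
  simp at hpos

end Pool.Agent.K4H52.AC
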