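import Mathlib

/-!
# Alpha-convex functions: definitions (MP_1f2de8_an)
-/

open Complex MeasureTheory Set Metric

namespace Pool.Agent.K4H52.AC

/-- The class `M(α)` of `α`-convex (Mocanu) functions: `f(z) = z + a₂ z² + …` is analytic and
univalent in the unit disc and `Re (α (1 + z f''/f') + (1 - α) z f'/f) > 0` there.
(At `z = 0`, where `z f'/f` has a removable singularity, this expression has the value `1`.) -/
structure InM (α : ℝ) (f : ℂ → ℂ) : Prop where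
  diff : DifferentiableOn ℂ f (ball 0 1)
  inj : InjOn f (ball 0 1)
  zero : f 0 = 0
  one : deriv f 0 = 1
  pos : ∀ z ∈ ball (0 : ℂ) 1, z ≠ 0 →
    0 < (α * (1 + z * deriv (deriv f) z / deriv f z) + (1 - α) * (z * deriv f z / f z)).re

/-- The sequence `q_n(α)`: `q_0 = 1` and
`(1 + α n) q_n = 2 + ∑_{k=1}^{n-1} (2 - q_k) q_{n-k}` for `n ≥ 1`. -/
noncomputable def qc (α : ℝ) : ℕ → ℝ
  | 0 => 1
  | n + 1 => (2 + ∑ i : Fin n, (2 - qc α (i + 1)) * qc α (n - i)) / (1 + α * (n + 1))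
decreasing_by all_goals omega

/-- The sequence `A_n(α)`: `A_0 = 0`, `A_1 = 1` and
`(n - 1) A_n = ∑_{k=1}^{n-1} q_k A_{n-k}` for `n ≥ 2`. -/
noncomputable def ac (α : ℝ) : ℕ → ℝ
  | 0 => 0
  | 1 => 1
  | n + 2 => (∑ i : Fin (n + 1), qc α (i + 1) * ac α (n + 1 - i)) / (n + 1)
decreasing_by omega

/-- The extremal function
`f_α(z) = z (1 - z)⁻² (α⁻¹ ∫_0^1 s^(1/α - 1) (1 - s + s ((1 + z)/(1 - z))²)^(-1/2) ds)^α`
(principal values of the powers). -/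
noncomputable def extremal (α : ℝ) (z : ℂ) : ℂ :=
  z / (1 - z) ^ 2 * (∫ s in (0 : ℝ)..1, ((α⁻¹ * s ^ (α⁻¹ - 1) : ℝ) : ℂ) *
    ((1 - (s : ℂ) + s * ((1 + z) / (1 - z)) ^ 2) ^ ((2 : ℂ)⁻¹))⁻¹) ^ (α : ℂ)

end Pool.Agent.K4H52.AC
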