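import Pool.Agent.K4H52.AC.Comp
import Pool.Agent.K4H52.AC.Defs

/-!
# The extremal function and the general bound
-/

open Complex MeasureTheory Set Filter Topology Metric
open Pool.Agent.Helper610.Bohr

namespace Pool.Agent.K4H52.AC

section
/-- A holomorphic injective function on an open set has non-vanishing derivative. -/
lemma deriv_ne_zero_of_injOn {f : ℂ → ℂ} {U : Set ℂ} (hU : IsOpen U) (hf : DifferentiableOn ℂ f U)
    (hinj : Set.InjOn f U) {z₀ : ℂ} (hz : z₀ ∈ U) : deriv f z₀ ≠ 0 := by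
  intro h0
  have hfa : AnalyticAt ℂ f z₀ := hf.analyticAt (hU.mem_nhds hz)
  have hFa : AnalyticAt ℂ (fun z => f z - f z₀) z₀ := hfa.sub analyticAt_const
  have hne : ¬ ∀ᶠ z in 𝓝 z₀, f z - f z₀ = 0 := by
    intro h
    have h1 : ∀ᶠ z in 𝓝[≠] z₀, f z - f z₀ = 0 ∧ z ∈ U ∧ z ≠ z₀ := by
      filter_upwards [h.filter_mono nhdsWithin_le_nhds,
        (hU.mem_nhds hz |> fun h => mem_nhdsWithin_of_mem_nhds h),
        self_mem_nhdsWithin] with z h1 h2 h3
      exact ⟨h1, h2, h3⟩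
    obtain ⟨z, hz1, hz2, hz3⟩ := h1.exists
    exact hz3 (hinj hz2 hz (sub_eq_zero.mp hz1))
  obtain ⟨n, g, hga, hg0, hgeq⟩ := hFa.exists_eventuallyEq_pow_smul_nonzero_iff.mpr hne
  have hn0 : n ≠ 0 := by
    rintro rfl
    have := hgeq.self_of_nhds
    simp at this
    exact hg0 this.symm
  have hn1 : n ≠ 1 := by
    rintro rfl
    have h1 : HasDerivAt (fun z => (z - z₀) ^ 1 • g z) (g z₀) z₀ := by
      have h2 := ((hasDerivAt_id z₀).sub_const z₀).mul hga.differentiableAt.hasDerivAt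
      simpa using! h2
    have h3 : HasDerivAt (fun z => f z - f z₀) (g z₀) z₀ := h1.congr_of_eventuallyEq hgeq
    have h4 : HasDerivAt f (g z₀) z₀ := by simpa using h3.add_const (f z₀)
    rw [h4.deriv] at h0
    exact hg0 h0
  obtain ⟨c, hc⟩ := IsAlgClosed.exists_pow_nat_eq (g z₀) (Nat.pos_of_ne_zero hn0)
  have hc0 : c ≠ 0 := by
    rintro rfl
    rw [zero_pow hn0] at hc
    exact hg0 hc.symm
  set h : ℂ → ℂ := fun z => c * (g z / g z₀) ^ (1 / (n : ℂ)) with hh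
  have hslit : g z₀ / g z₀ ∈ Complex.slitPlane := by rw [div_self hg0]; exact Complex.one_mem_slitPlane
  have hha : AnalyticAt ℂ h z₀ := by
    apply analyticAt_const.mul
    exact (hga.div analyticAt_const hg0).cpow analyticAt_const hslit
  have hnC : (n : ℂ) ≠ 0 := by exact_mod_cast hn0
  have hhn : ∀ z, h z ^ n = g z := by
    intro z
    rw [hh]
    simp only
    rw [mul_pow, hc, ← Complex.cpow_mul_nat]
    rw [one_div, inv_mul_cancel₀ hnC, Complex.cpow_one]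
    field_simp
  have hh0 : h z₀ = c := by
    rw [hh]; simp [div_self hg0]
  set φ : ℂ → ℂ := fun z => (z - z₀) * h z with hφ
  have hφd : HasStrictDerivAt φ c z₀ := by
    have h1 : HasStrictDerivAt h (deriv h z₀) z₀ := hha.hasStrictDerivAt
    have h2 : HasStrictDerivAt (fun z : ℂ => z - z₀) 1 z₀ := (hasStrictDerivAt_id z₀).sub_const z₀
    have h3 := h2.mul h1
    rw [← hh0]
    simpa using! h3
  have hmap : map φ (𝓝 z₀) = 𝓝 0 := by
    have := hφd.map_nhds_eq hc0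
    rw [this]
    congr 1
    rw [hφ]; simp
  have hV : ∀ᶠ z in 𝓝 z₀, z ∈ U ∧ f z - f z₀ = φ z ^ n := by
    filter_upwards [hU.mem_nhds hz, hgeq] with z h1 h2
    refine ⟨h1, ?_⟩
    rw [h2, hφ]
    simp only
    rw [mul_pow, hhn, smul_eq_mul]
  obtain ⟨V, hVm, hV2⟩ := hV.exists_mem
  have himg : φ '' V ∈ 𝓝 (0 : ℂ) := by
    rw [← hmap]
    exact image_mem_map hVm
  set ζ : ℂ := Complex.exp (2 * Real.pi * I / n) with hζ
  have hprim : IsPrimitiveRoot ζ n := Complex.isPrimitiveRoot_exp n hn0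
  have hζ1 : ζ ≠ 1 := hprim.ne_one (by omega)
  have hζn : ζ ^ n = 1 := hprim.pow_eq_one
  have hcont : Tendsto (fun w : ℂ => ζ * w) (𝓝 0) (𝓝 0) := by
    have : Continuous (fun w : ℂ => ζ * w) := by fun_prop
    simpa using this.tendsto 0
  have hboth : ∀ᶠ w in 𝓝[≠] (0 : ℂ), w ∈ φ '' V ∧ ζ * w ∈ φ '' V ∧ w ≠ 0 := by
    filter_upwards [mem_nhdsWithin_of_mem_nhds himg, mem_nhdsWithin_of_mem_nhds (hcont himg),
      self_mem_nhdsWithin] with w h1 h2 h3
    exact ⟨h1, h2, h3⟩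
  obtain ⟨w, ⟨z1, hz1, hw1⟩, ⟨z2, hz2, hw2⟩, hw0⟩ := hboth.exists
  have e1 := (hV2 z1 hz1).2
  have e2 := (hV2 z2 hz2).2
  rw [hw1] at e1
  rw [hw2, mul_pow, hζn, one_mul] at e2
  have e3 : f z1 = f z2 := by
    have : f z1 - f z₀ = f z2 - f z₀ := by rw [e1, e2]
    linear_combination this
  have e4 := hinj (hV2 z1 hz1).1 (hV2 z2 hz2).1 e3
  rw [← e4, hw1] at hw2
  apply hζ1
  have : (ζ - 1) * w = 0 := by linear_combination -hw2
  rcases mul_eq_zero.mp this with h1 | h1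
  · linear_combination h1
  · exact absurd h1 hw0



end

/-! the extremal function `q0` -/

noncomputable def q0 (m : ℝ) (z : ℂ) : ℂ := (T0 m z)⁻¹

variable {m : ℝ}

lemma T0_re (hm : 1 ≤ m) {z : ℂ} (hz : z ∈ ball (0 : ℂ) 1) : 0 < (T0 m z).re :=
  T_re_pos hm (mob_re (by simpa using hz))

lemma T0_ne (hm : 1 ≤ m) {z : ℂ} (hz : z ∈ ball (0 : ℂ) 1) : T0 m z ≠ 0 := ne_zero_of_re (T0_re hm hz)

lemma q0_re (hm : 1 ≤ m) {z : ℂ} (hz : z ∈ ball (0 : ℂ) 1) : 0 < (q0 m z).re := inv_re_pos (T0_re hm hz)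

lemma q0_ne (hm : 1 ≤ m) {z : ℂ} (hz : z ∈ ball (0 : ℂ) 1) : q0 m z ≠ 0 := ne_zero_of_re (q0_re hm hz)

lemma q0_diff (hm : 1 ≤ m) : DifferentiableOn ℂ (q0 m) (ball 0 1) :=
  (T0_diff hm).inv (fun _ hz => T0_ne hm hz)

lemma q0_zero (hm : 1 ≤ m) : q0 m 0 = 1 := by rw [q0, T0_zero hm, inv_one]

lemma q0_ode (hm : 1 ≤ m) {z : ℂ} (hz : z ∈ ball (0 : ℂ) 1) :
    z * deriv (q0 m) z = m * (q0 m z * (mob z - q0 m z)) := by
  have hz' : ‖z‖ < 1 := by simpa using hz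
  have hT := T0_ne hm hz
  have h1 : HasDerivAt (q0 m) (-(deriv (T0 m) z) / (T0 m z) ^ 2) z :=
    ((T0_diff hm).differentiableAt (isOpen_ball.mem_nhds hz)).hasDerivAt.inv hT
  rw [h1.deriv]
  have h2 := T0_ode hm hz'
  have h3 : z * (-(deriv (T0 m) z) / (T0 m z) ^ 2) = -(z * deriv (T0 m) z) / (T0 m z) ^ 2 := by ring
  rw [h3, h2, q0]
  field_simp
  ring

/-- coefficients of the Cayley map -/
noncomputable def mc (n : ℕ) : ℂ := if n = 0 then 1 else 2

lemma ps_mob : PS mob mc := by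
  intro z hz
  have h0 := one_sub_ne hz
  have h1 := (hasSum_geometric_of_norm_lt_one hz).mul_left 2
  have h2 := hasSum_ite_eq (0 : ℕ) (1 : ℂ)
  have h3 := h1.sub h2
  have e : 2 * (1 - z)⁻¹ - 1 = mob z := by
    unfold mob; field_simp; ring
  rw [e] at h3
  refine h3.congr_fun (fun n => ?_)
  unfold mc
  by_cases hn : n = 0
  · subst hn; norm_num
  · simp [hn]

lemma re_nonneg_coef (hm : 1 ≤ m) {n : ℕ} (hn : n ≠ 0) : ‖coeff (q0 m) n‖ ≤ 2 := by
  refine carath (PS.of_diff (q0_diff hm)) (q0_diff hm) (fun z hz => (q0_re hm (by simpa using hz)).le) ?_ hn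
  simp [coeff, q0_zero hm]

lemma coeff_zero_eq (f : ℂ → ℂ) : coeff f 0 = f 0 := by simp [coeff]

lemma antidiag_expand (f : ℕ → ℕ → ℂ) (n : ℕ) : ∑ kl ∈ Finset.HasAntidiagonal.antidiagonal (n + 1), f kl.1 kl.2 =
    f 0 (n + 1) + (∑ i ∈ Finset.range n, f (i + 1) (n - i) + f (n + 1) 0) := by
  rw [Finset.Nat.sum_antidiagonal_succ,
    Finset.Nat.sum_antidiagonal_eq_sum_range_succ (fun i j => f (i + 1) j), Finset.sum_range_succ,
    Nat.sub_self]

lemma coeff_q0 (hm : 1 ≤ m) (n : ℕ) : coeff (q0 m) n = (qc m⁻¹ n : ℝ) := by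
  have hm0 : (m : ℂ) ≠ 0 := by exact_mod_cast (by linarith : m ≠ 0)
  have hQ0 : coeff (q0 m) 0 = 1 := by rw [coeff_zero_eq, q0_zero hm]
  have hps : PS (q0 m) (coeff (q0 m)) := PS.of_diff (q0_diff hm)
  have h1 := ps_theta (q0_diff hm)
  have h2 := (hps.mul (ps_mob.sub hps)).const_mul (m : ℂ)
  have h3 : PS (fun z => z * deriv (q0 m) z)
      (fun n => (m : ℂ) * conv (coeff (q0 m)) (fun n => mc n - coeff (q0 m) n) n) :=
    ps_congr h2 (fun z hz => q0_ode hm hz)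
  have h4 := PS.unique h1 h3
  induction n using Nat.strong_induction_on with
  | _ n ih =>
    cases n with
    | zero => rw [hQ0, qc]; simp
    | succ n =>
      have h5 := congrFun h4 (n + 1)
      rw [conv_comm] at h5
      unfold conv at h5
      rw [antidiag_expand (fun i j => (mc i - coeff (q0 m) i) * coeff (q0 m) j)] at h5
      have hmc : ∀ k, mc (k + 1) = 2 := fun k => by simp [mc]
      have hmc0 : mc 0 = 1 := by simp [mc]
      rw [hmc0, hQ0, sub_self, zero_mul, zero_add, hmc n] at h5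
      have h6 : ∑ i ∈ Finset.range n, (mc (i + 1) - coeff (q0 m) (i + 1)) * coeff (q0 m) (n - i) =
          ((∑ i : Fin n, (2 - qc m⁻¹ (i + 1)) * qc m⁻¹ (n - i) : ℝ) : ℂ) := by
        rw [Fin.sum_univ_eq_sum_range (fun i => (2 - qc m⁻¹ (i + 1)) * qc m⁻¹ (n - i)) n]
        push_cast
        refine Finset.sum_congr rfl (fun i hi => ?_)
        rw [Finset.mem_range] at hi
        rw [hmc, ih (i + 1) (by omega), ih (n - i) (by omega)]
      rw [h6] at h5
      rw [qc]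
      have h7 : (1 + m⁻¹ * ((n : ℝ) + 1)) ≠ 0 := by positivity
      have h8 : (1 + (m : ℂ)⁻¹ * ((n : ℂ) + 1)) ≠ 0 := by exact_mod_cast h7
      rw [Complex.ofReal_div, eq_div_iff (by exact_mod_cast h7)]
      push_cast at h5 ⊢
      have h9 : (m : ℂ)⁻¹ * (((n : ℂ) + 1) * coeff (q0 m) (n + 1)) =
          (∑ i : Fin n, (2 - ((qc m⁻¹ (i + 1) : ℝ) : ℂ)) * ((qc m⁻¹ (n - i) : ℝ) : ℂ)) +
            (2 - coeff (q0 m) (n + 1)) * 1 := by
        rw [h5, ← mul_assoc, inv_mul_cancel₀ hm0, one_mul]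
      linear_combination h9

lemma qc_le (hm : 1 ≤ m) {n : ℕ} (hn : n ≠ 0) : 0 ≤ 2 - qc m⁻¹ n := by
  have h := re_nonneg_coef hm hn
  rw [coeff_q0 hm, Complex.norm_real, Real.norm_eq_abs] at h
  have := (abs_le.mp h).2
  linarith

/-! the function `G` -/

noncomputable def G (m : ℝ) (z : ℂ) : ℂ := (q0 m z) ^ ((1 - m⁻¹ : ℝ) : ℂ)

lemma slit_of_re {z : ℂ} (h : 0 < z.re) : z ∈ slitPlane := Or.inl h

lemma G_diff (hm : 1 ≤ m) : DifferentiableOn ℂ (G m) (ball 0 1) := by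
  unfold G
  exact (q0_diff hm).cpow_const (fun z hz => slit_of_re (q0_re hm hz))

lemma G_zero (hm : 1 ≤ m) : G m 0 = 1 := by rw [G, q0_zero hm, Complex.one_cpow]

lemma G_ode (hm : 1 ≤ m) {z : ℂ} (hz : z ∈ ball (0 : ℂ) 1) :
    z * deriv (G m) z = ((m - 1 : ℝ) : ℂ) * ((mob z - q0 m z) * G m z) := by
  have hm0 : (m : ℂ) ≠ 0 := by exact_mod_cast (by linarith : m ≠ 0)
  have hd := ((q0_diff hm).differentiableAt (isOpen_ball.mem_nhds hz)).hasDerivAt
  have h1 := HasDerivAt.cpow_const (c := ((1 - m⁻¹ : ℝ) : ℂ)) hd (slit_of_re (q0_re hm hz))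
  have hq := q0_ne hm hz
  have h2 : deriv (G m) z = ((1 - m⁻¹ : ℝ) : ℂ) * (q0 m z) ^ (((1 - m⁻¹ : ℝ) : ℂ) - 1) * deriv (q0 m) z :=
    h1.deriv
  rw [h2, Complex.cpow_sub _ _ hq, Complex.cpow_one]
  have h3 := q0_ode hm hz
  have h4 : z * (((1 - m⁻¹ : ℝ) : ℂ) * (q0 m z ^ ((1 - m⁻¹ : ℝ) : ℂ) / q0 m z) * deriv (q0 m) z) =
      ((1 - m⁻¹ : ℝ) : ℂ) * (q0 m z ^ ((1 - m⁻¹ : ℝ) : ℂ) / q0 m z) * (z * deriv (q0 m) z) := by ring
  rw [h4, h3, G]
  push_cast
  field_simp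

lemma coeff_G (hm : 1 ≤ m) (n : ℕ) : ∃ γ : ℝ, 0 ≤ γ ∧ coeff (G m) n = γ := by
  have hm0 : (m : ℂ) ≠ 0 := by exact_mod_cast (by linarith : m ≠ 0)
  have hps : PS (G m) (coeff (G m)) := PS.of_diff (G_diff hm)
  have hq : PS (q0 m) (coeff (q0 m)) := PS.of_diff (q0_diff hm)
  have h1 := ps_theta (G_diff hm)
  have h2 := ((ps_mob.sub hq).mul hps).const_mul ((m - 1 : ℝ) : ℂ)
  have h3 : PS (fun z => z * deriv (G m) z)
      (fun n => ((m - 1 : ℝ) : ℂ) * conv (fun n => mc n - coeff (q0 m) n) (coeff (G m)) n) :=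
    ps_congr h2 (fun z hz => G_ode hm hz)
  have h4 := PS.unique h1 h3
  induction n using Nat.strong_induction_on with
  | _ n ih =>
    rcases Nat.eq_zero_or_pos n with h | h
    · subst h
      exact ⟨1, zero_le_one, by rw [coeff_zero_eq, G_zero hm]; simp⟩
    · have h5 := congrFun h4 n
      have h6 : ∃ δ : ℝ, 0 ≤ δ ∧ conv (fun n => mc n - coeff (q0 m) n) (coeff (G m)) n = δ := by
        unfold conv
        have h7 : ∀ kl ∈ Finset.HasAntidiagonal.antidiagonal n, ∃ δ : ℝ, 0 ≤ δ ∧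
            (mc kl.1 - coeff (q0 m) kl.1) * coeff (G m) kl.2 = δ := by
          intro kl hkl
          rw [Finset.HasAntidiagonal.mem_antidiagonal] at hkl
          by_cases hk : kl.1 = 0
          · refine ⟨0, le_rfl, ?_⟩
            rw [hk, coeff_q0 hm]
            simp [mc, qc]
          · obtain ⟨γ, hγ, hγ2⟩ := ih kl.2 (by omega)
            refine ⟨(2 - qc m⁻¹ kl.1) * γ, mul_nonneg (qc_le hm hk) hγ, ?_⟩
            rw [hγ2, coeff_q0 hm]
            simp [mc, hk]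
        choose! δ hδ hδ2 using h7
        refine ⟨∑ kl ∈ Finset.HasAntidiagonal.antidiagonal n, δ kl, Finset.sum_nonneg hδ, ?_⟩
        rw [Complex.ofReal_sum]
        exact Finset.sum_congr rfl hδ2
      obtain ⟨δ, hδ, hδ2⟩ := h6
      rw [hδ2] at h5
      refine ⟨(m - 1) * δ / n, div_nonneg (mul_nonneg (by linarith) hδ) (Nat.cast_nonneg n), ?_⟩
      have h8 : (n : ℂ) ≠ 0 := by exact_mod_cast h.ne'
      push_cast at h5 ⊢
      field_simp
      linear_combination h5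

/-- the coefficients of `G` -/
noncomputable def gam (m : ℝ) (n : ℕ) : ℝ := (coeff (G m) n).re

lemma gam_spec (hm : 1 ≤ m) (n : ℕ) : coeff (G m) n = (gam m n : ℂ) := by
  obtain ⟨γ, _, h⟩ := coeff_G hm n
  rw [gam, h, Complex.ofReal_re]

lemma gam_nonneg (hm : 1 ≤ m) (n : ℕ) : 0 ≤ gam m n := by
  obtain ⟨γ, h0, h⟩ := coeff_G hm n
  rw [gam, h, Complex.ofReal_re]; exact h0

/-! general facts about `f = z φ`, `f' = q φ` -/

lemma logder {φ q : ℂ → ℂ} (hφ : DifferentiableOn ℂ φ (ball 0 1)) (hq : DifferentiableOn ℂ q (ball 0 1))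
    {f : ℂ → ℂ} (hf : ∀ z, f z = z * φ z) (hqd : ∀ z ∈ ball (0 : ℂ) 1, deriv f z = q z * φ z)
    (hφ0 : ∀ z ∈ ball (0 : ℂ) 1, φ z ≠ 0) (hq0 : ∀ z ∈ ball (0 : ℂ) 1, q z ≠ 0) {z : ℂ}
    (hz : z ∈ ball (0 : ℂ) 1) :
    z * deriv φ z = (q z - 1) * φ z ∧
      z * deriv (deriv f) z / deriv f z = q z - 1 + z * deriv q z / q z := by
  have hφd := (hφ.differentiableAt (isOpen_ball.mem_nhds hz)).hasDerivAt
  have hqdd := (hq.differentiableAt (isOpen_ball.mem_nhds hz)).hasDerivAt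
  have hfd : deriv f z = φ z + z * deriv φ z := by
    have h1 : HasDerivAt f (1 * φ z + z * deriv φ z) z := by
      have := (hasDerivAt_id z).mul hφd
      refine this.congr_of_eventuallyEq (Filter.Eventually.of_forall (fun w => ?_))
      exact hf w
    rw [h1.deriv]; ring
  have h1 : z * deriv φ z = (q z - 1) * φ z := by
    have := hqd z hz
    rw [hfd] at this
    linear_combination this
  refine ⟨h1, ?_⟩
  have h2 : deriv (deriv f) z = deriv q z * φ z + q z * deriv φ z := by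
    have h3 : deriv f =ᶠ[𝓝 z] (fun w => q w * φ w) := by
      filter_upwards [isOpen_ball.mem_nhds hz] with w hw
      exact hqd w hw
    rw [h3.deriv_eq]
    exact (hqdd.mul hφd).deriv
  have h4 := hφ0 z hz
  have h5 := hq0 z hz
  rw [h2, hqd z hz]
  have h6 : z * (deriv q z * φ z + q z * deriv φ z) = z * deriv q z * φ z + q z * (z * deriv φ z) := by ring
  rw [h6, h1]
  field_simp
  ring

end Pool.Agent.K4H52.AC
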