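import Mathlib

/-!
# The kernel of the extremal Briot-Bouquet function

`T m w = m ∫_0^1 s^(m-1) / sqrt (1 - s + s w²) ds` for `w` in the right half plane.
-/

open Complex MeasureTheory Set Filter Topology

namespace Pool.Agent.K4H52.AC

/-- the square root `sqrt (1 - s + s w²)` -/
noncomputable def R (s : ℝ) (w : ℂ) : ℂ := (1 - (s : ℂ) + s * w ^ 2) ^ ((2 : ℂ)⁻¹)

lemma slit {s : ℝ} (h0 : 0 ≤ s) (h1 : s ≤ 1) {w : ℂ} (hw : 0 < w.re) :
    (1 - (s : ℂ) + s * w ^ 2) ∈ slitPlane := by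
  rw [mem_slitPlane_iff]
  have him : (1 - (s : ℂ) + s * w ^ 2).im = 2 * s * w.re * w.im := by
    simp [pow_two]; ring
  have hre : (1 - (s : ℂ) + s * w ^ 2).re = 1 - s + s * (w.re ^ 2 - w.im ^ 2) := by
    simp [pow_two]
  by_cases hs : s = 0
  · left; rw [hre, hs]; norm_num
  by_cases hi : w.im = 0
  · left; rw [hre, hi]
    have : 0 < s := lt_of_le_of_ne h0 (Ne.symm hs)
    nlinarith [mul_pos this (pow_pos hw 2)]
  · right; rw [him]; positivity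

lemma R_sq (s : ℝ) (w : ℂ) : R s w ^ 2 = 1 - (s : ℂ) + s * w ^ 2 := by
  have h := Complex.cpow_nat_inv_pow (1 - (s : ℂ) + s * w ^ 2) (n := 2) two_ne_zero
  rw [Nat.cast_ofNat] at h
  exact h

lemma sqrt_re_pos {x : ℂ} (hx : x ∈ slitPlane) : 0 < (x ^ ((2 : ℂ)⁻¹)).re := by
  rw [Complex.cpow_inv_two_re]
  apply Real.sqrt_pos.mpr
  have h1 : -‖x‖ < x.re := by
    rcases mem_slitPlane_iff.mp hx with h | h
    · linarith [norm_nonneg x]
    · have := Complex.abs_re_lt_norm.mpr h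
      exact (abs_lt.mp this).1
  linarith

lemma R_re {s : ℝ} (h0 : 0 ≤ s) (h1 : s ≤ 1) {w : ℂ} (hw : 0 < w.re) : 0 < (R s w).re :=
  sqrt_re_pos (slit h0 h1 hw)

lemma ne_zero_of_re {z : ℂ} (h : 0 < z.re) : z ≠ 0 := by
  rintro rfl; simp at h

lemma R_ne {s : ℝ} (h0 : 0 ≤ s) (h1 : s ≤ 1) {w : ℂ} (hw : 0 < w.re) : R s w ≠ 0 :=
  ne_zero_of_re (R_re h0 h1 hw)

lemma eq_of_sq {a b : ℂ} (ha : 0 < a.re) (hb : 0 < b.re) (h : a ^ 2 = b ^ 2) : a = b := by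
  have h1 : (a - b) * (a + b) = 0 := by linear_combination h
  rcases mul_eq_zero.mp h1 with h2 | h2
  · exact sub_eq_zero.mp h2
  · exfalso
    have : (a + b).re = 0 := by rw [h2]; simp
    simp at this; linarith

lemma R_one {w : ℂ} (hw : 0 < w.re) : R 1 w = w := by
  apply eq_of_sq (R_re zero_le_one le_rfl hw) hw
  rw [R_sq]; push_cast; ring

lemma R_zero {w : ℂ} : R 0 w = 1 := by
  unfold R; simp

lemma R_at_one (s : ℝ) : R s 1 = 1 := by
  unfold R; simp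

lemma hasDerivAt_R {s : ℝ} (h0 : 0 ≤ s) (h1 : s ≤ 1) {w : ℂ} (hw : 0 < w.re) :
    HasDerivAt (fun w => (R s w)⁻¹) (-(s : ℂ) * w / (R s w) ^ 3) w := by
  have hs := slit h0 h1 hw
  have hR := R_ne h0 h1 hw
  have e1 : HasDerivAt (fun w : ℂ => (1 - (s : ℂ) + s * w ^ 2)) ((s : ℂ) * (2 * w)) w := by
    have h := ((hasDerivAt_pow 2 w).const_mul (s : ℂ)).const_add (1 - (s : ℂ))
    simpa using h
  have e2 := e1.cpow_const (c := (2 : ℂ)⁻¹) hs
  have e3 := e2.inv hR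
  refine e3.congr_deriv ?_
  have h4 : (1 - (s : ℂ) + s * w ^ 2) ^ ((2 : ℂ)⁻¹ - 1) = (R s w)⁻¹ := by
    rw [show (2 : ℂ)⁻¹ - 1 = -(2 : ℂ)⁻¹ by norm_num, Complex.cpow_neg]; rfl
  rw [h4]
  change -((2 : ℂ)⁻¹ * (R s w)⁻¹ * (s * (2 * w))) / (R s w) ^ 2 = _
  field_simp

lemma hasDerivAt_R_s {s : ℝ} (h0 : 0 ≤ s) (h1 : s ≤ 1) {w : ℂ} (hw : 0 < w.re) :
    HasDerivAt (fun s : ℝ => (R s w)⁻¹) (-(2 : ℂ)⁻¹ * (w ^ 2 - 1) / (R s w) ^ 3) s := by
  have hs := slit h0 h1 hw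
  have hR := R_ne h0 h1 hw
  have e1 : HasDerivAt (fun s : ℂ => (1 - (s : ℂ) + s * w ^ 2)) (w ^ 2 - 1) (s : ℂ) := by
    have h := ((hasDerivAt_id (s : ℂ)).const_sub 1).add ((hasDerivAt_id (s : ℂ)).mul_const (w ^ 2))
    refine (h.congr_deriv (by ring)).congr_of_eventuallyEq ?_
    filter_upwards with z
    simp
  have e1' := e1.comp_ofReal
  have e2 := HasDerivAt.cpow_const (c := (2 : ℂ)⁻¹) e1 hs
  have e2' := e2.comp_ofReal
  have e3 := e2'.inv hR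
  refine e3.congr_deriv ?_
  have h4 : (1 - (s : ℂ) + s * w ^ 2) ^ ((2 : ℂ)⁻¹ - 1) = (R s w)⁻¹ := by
    rw [show (2 : ℂ)⁻¹ - 1 = -(2 : ℂ)⁻¹ by norm_num, Complex.cpow_neg]; rfl
  rw [h4]
  change -((2 : ℂ)⁻¹ * (R s w)⁻¹ * (w ^ 2 - 1)) / (R s w) ^ 2 = _
  field_simp

lemma continuousOn_R : ContinuousOn (fun p : ℝ × ℂ => R p.1 p.2) (Icc 0 1 ×ˢ {w : ℂ | 0 < w.re}) := by
  intro p hp
  have hs := slit hp.1.1 hp.1.2 hp.2
  have hc : ContinuousAt (fun p : ℝ × ℂ => (1 - (p.1 : ℂ) + p.1 * p.2 ^ 2)) p := by fun_prop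
  exact (hc.cpow continuousAt_const hs).continuousWithinAt

lemma continuousOn_R_s {w : ℂ} (hw : 0 < w.re) : ContinuousOn (fun s : ℝ => R s w) (Icc 0 1) := by
  have := continuousOn_R.comp (f := fun s : ℝ => (s, w)) (s := Icc 0 1) (by fun_prop)
    (fun s hs => ⟨hs, hw⟩)
  exact this

/-- the density `m s^(m-1)` -/
noncomputable def dn (m s : ℝ) : ℝ := m * s ^ (m - 1)

lemma continuous_dn {m : ℝ} (hm : 1 ≤ m) : Continuous (dn m) := by
  unfold dn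
  exact continuous_const.mul (Real.continuous_rpow_const (by linarith))

lemma dn_nonneg {m : ℝ} (hm : 1 ≤ m) {s : ℝ} (hs : 0 ≤ s) : 0 ≤ dn m s := by
  unfold dn; positivity

lemma dn_pos {m : ℝ} (hm : 1 ≤ m) {s : ℝ} (hs : 0 < s) : 0 < dn m s := by
  unfold dn; positivity

lemma integral_dn {m : ℝ} (hm : 1 ≤ m) : ∫ s in (0 : ℝ)..1, dn m s = 1 := by
  unfold dn
  rw [intervalIntegral.integral_const_mul, integral_rpow (Or.inl (by linarith))]
  have h : m - 1 + 1 = m := by ring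
  rw [h, Real.zero_rpow (by linarith), Real.one_rpow]
  field_simp
  ring

/-- the extremal function on the right half plane -/
noncomputable def T (m : ℝ) (w : ℂ) : ℂ := ∫ s in (0 : ℝ)..1, ((dn m s : ℝ) : ℂ) * (R s w)⁻¹

/-- its derivative -/
noncomputable def T' (m : ℝ) (w : ℂ) : ℂ :=
  ∫ s in (0 : ℝ)..1, ((dn m s : ℝ) : ℂ) * (-(s : ℂ) * w / (R s w) ^ 3)

lemma contOn_T {m : ℝ} (hm : 1 ≤ m) {w : ℂ} (hw : 0 < w.re) :
    ContinuousOn (fun s : ℝ => ((dn m s : ℝ) : ℂ) * (R s w)⁻¹) (Icc 0 1) := by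
  refine ContinuousOn.mul ?_ ((continuousOn_R_s hw).inv₀ (fun s hs => R_ne hs.1 hs.2 hw))
  exact (Complex.continuous_ofReal.comp (continuous_dn hm)).continuousOn

lemma contOn_T' {m : ℝ} (hm : 1 ≤ m) {w : ℂ} (hw : 0 < w.re) :
    ContinuousOn (fun s : ℝ => ((dn m s : ℝ) : ℂ) * (-(s : ℂ) * w / (R s w) ^ 3)) (Icc 0 1) := by
  refine ContinuousOn.mul ?_ (ContinuousOn.div ?_ ((continuousOn_R_s hw).pow 3)
    (fun s hs => pow_ne_zero 3 (R_ne hs.1 hs.2 hw)))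
  · exact (Complex.continuous_ofReal.comp (continuous_dn hm)).continuousOn
  · fun_prop

lemma ii {f : ℝ → ℂ} (h : ContinuousOn f (Icc 0 1)) : IntervalIntegrable f volume 0 1 := by
  refine ContinuousOn.intervalIntegrable ?_
  rwa [uIcc_of_le zero_le_one]

lemma hasDerivAt_T {m : ℝ} (hm : 1 ≤ m) {w : ℂ} (hw : 0 < w.re) : HasDerivAt (T m) (T' m w) w := by
  set ε := w.re / 2 with hε
  have hεp : 0 < ε := by positivity
  have hsub : ∀ x ∈ Metric.closedBall w ε, 0 < x.re := by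
    intro x hx
    have h1 : |(x - w).re| ≤ ε := (Complex.abs_re_le_norm _).trans (by simpa [dist_eq_norm] using hx)
    have := (abs_le.mp h1).1
    simp at this
    linarith
  -- bound
  obtain ⟨M, hM⟩ : ∃ M, ∀ p ∈ Icc (0 : ℝ) 1 ×ˢ Metric.closedBall w ε,
      ‖((dn m p.1 : ℝ) : ℂ) * (-(p.1 : ℂ) * p.2 / (R p.1 p.2) ^ 3)‖ ≤ M := by
    have hc : IsCompact (Icc (0 : ℝ) 1 ×ˢ Metric.closedBall w ε) :=
      isCompact_Icc.prod (isCompact_closedBall w ε)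
    refine hc.exists_bound_of_continuousOn (f := fun p : ℝ × ℂ =>
      ((dn m p.1 : ℝ) : ℂ) * (-(p.1 : ℂ) * p.2 / (R p.1 p.2) ^ 3)) ?_
    have hR : ContinuousOn (fun p : ℝ × ℂ => R p.1 p.2) (Icc (0 : ℝ) 1 ×ˢ Metric.closedBall w ε) :=
      continuousOn_R.mono (fun p hp => ⟨hp.1, hsub _ hp.2⟩)
    refine ContinuousOn.mul ?_ (ContinuousOn.div ?_ (hR.pow 3)
      (fun p hp => pow_ne_zero 3 (R_ne hp.1.1 hp.1.2 (hsub _ hp.2))))
    · exact (Complex.continuous_ofReal.comp ((continuous_dn hm).comp continuous_fst)).continuousOn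
    · fun_prop
  have key := intervalIntegral.hasDerivAt_integral_of_dominated_loc_of_deriv_le (𝕜 := ℂ)
    (μ := volume) (a := 0) (b := 1)
    (F := fun w (s : ℝ) => ((dn m s : ℝ) : ℂ) * (R s w)⁻¹)
    (F' := fun w (s : ℝ) => ((dn m s : ℝ) : ℂ) * (-(s : ℂ) * w / (R s w) ^ 3))
    (x₀ := w) (s := Metric.ball w ε) (bound := fun _ => M) (Metric.ball_mem_nhds w hεp)
    ?_ (ii (contOn_T hm hw)) ?_ ?_ (by simp) ?_
  · exact key.2
  · filter_upwards [Metric.ball_mem_nhds w hεp] with x hx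
    exact (ii (contOn_T hm (hsub x (Metric.ball_subset_closedBall hx)))).aestronglyMeasurable_restrict_uIoc
  · exact (ii (contOn_T' hm hw)).aestronglyMeasurable_restrict_uIoc
  · refine ae_of_all _ (fun s hs x hx => ?_)
    rw [uIoc_of_le zero_le_one] at hs
    exact hM (s, x) ⟨⟨hs.1.le, hs.2⟩, Metric.ball_subset_closedBall hx⟩
  · refine ae_of_all _ (fun s hs x hx => ?_)
    rw [uIoc_of_le zero_le_one] at hs
    exact (hasDerivAt_R hs.1.le hs.2 (hsub x (Metric.ball_subset_closedBall hx))).const_mul _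

/-- the differential equation -/
lemma ode_T {m : ℝ} (hm : 1 ≤ m) {w : ℂ} (hw : 0 < w.re) :
    (w ^ 2 - 1) * T' m w = 2 * m * (1 - w * T m w) := by
  have hd : ∀ s ∈ uIcc (0 : ℝ) 1, HasDerivAt (fun s : ℝ => ((s ^ m : ℝ) : ℂ) * (R s w)⁻¹)
      (((dn m s : ℝ) : ℂ) * (R s w)⁻¹ +
        ((s ^ m : ℝ) : ℂ) * (-(2 : ℂ)⁻¹ * (w ^ 2 - 1) / (R s w) ^ 3)) s := by
    intro s hs
    rw [uIcc_of_le zero_le_one] at hs
    have h1 : HasDerivAt (fun s : ℝ => s ^ m) (dn m s) s := by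
      unfold dn
      exact Real.hasDerivAt_rpow_const (Or.inr hm)
    exact h1.ofReal_comp.mul (hasDerivAt_R_s hs.1 hs.2 hw)
  have hc2 : ContinuousOn (fun s : ℝ => ((s ^ m : ℝ) : ℂ) *
      (-(2 : ℂ)⁻¹ * (w ^ 2 - 1) / (R s w) ^ 3)) (Icc 0 1) := by
    refine ContinuousOn.mul ?_ (ContinuousOn.div ?_ ((continuousOn_R_s hw).pow 3)
      (fun s hs => pow_ne_zero 3 (R_ne hs.1 hs.2 hw)))
    · exact (Complex.continuous_ofReal.comp (Real.continuous_rpow_const (by linarith))).continuousOn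
    · fun_prop
  have hi1 := ii (contOn_T hm hw)
  have hi2 := ii hc2
  have key := intervalIntegral.integral_eq_sub_of_hasDerivAt hd (hi1.add hi2)
  rw [intervalIntegral.integral_add hi1 hi2, R_one hw] at key
  simp only [Real.one_rpow, Real.zero_rpow (by linarith : m ≠ 0), Complex.ofReal_one,
    Complex.ofReal_zero, zero_mul, one_mul, sub_zero] at key
  have h3 : (w ^ 2 - 1) * T' m w = 2 * m * w *
      ∫ s in (0 : ℝ)..1, ((s ^ m : ℝ) : ℂ) * (-(2 : ℂ)⁻¹ * (w ^ 2 - 1) / (R s w) ^ 3) := by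
    unfold T'
    rw [← intervalIntegral.integral_const_mul, ← intervalIntegral.integral_const_mul]
    refine intervalIntegral.integral_congr (fun s hs => ?_)
    rw [uIcc_of_le zero_le_one] at hs
    have hR := R_ne hs.1 hs.2 hw
    have h5 : (dn m s) * s = m * s ^ m := by
      unfold dn
      rcases eq_or_lt_of_le hs.1 with h | h
      · rw [← h, Real.zero_rpow (by linarith : m ≠ 0)]; simp
      · rw [mul_assoc, ← Real.rpow_add_one h.ne']
        congr 2; ring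
    have h6 : ((dn m s : ℝ) : ℂ) * s = m * ((s ^ m : ℝ) : ℂ) := by exact_mod_cast h5
    field_simp
    linear_combination (-(w * (w ^ 2 - 1))) * h6
  have hw0 := ne_zero_of_re hw
  rw [h3]
  have h4 : ∫ s in (0 : ℝ)..1, ((s ^ m : ℝ) : ℂ) * (-(2 : ℂ)⁻¹ * (w ^ 2 - 1) / (R s w) ^ 3) =
      w⁻¹ - T m w := by
    rw [← key]; unfold T; ring
  rw [h4]
  field_simp

end Pool.Agent.K4H52.AC
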