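import Pool.Agent.K4H52.AC.Kern

/-!
# Positivity and injectivity of the extremal function
-/

open Complex MeasureTheory Set Filter Topology

namespace Pool.Agent.K4H52.AC

lemma re_int {f : ℝ → ℂ} (hf : ContinuousOn f (Icc 0 1)) :
    (∫ s in (0 : ℝ)..1, f s).re = ∫ s in (0 : ℝ)..1, (f s).re :=
  (Complex.reCLM.intervalIntegral_comp_comm (ii hf)).symm

lemma im_int {f : ℝ → ℂ} (hf : ContinuousOn f (Icc 0 1)) :
    (∫ s in (0 : ℝ)..1, f s).im = ∫ s in (0 : ℝ)..1, (f s).im :=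
  (Complex.imCLM.intervalIntegral_comp_comm (ii hf)).symm

lemma iir {f : ℝ → ℝ} (h : ContinuousOn f (Icc 0 1)) : IntervalIntegrable f volume 0 1 := by
  refine ContinuousOn.intervalIntegrable ?_
  rwa [uIcc_of_le zero_le_one]

lemma int_re_pos {f : ℝ → ℂ} (hf : ContinuousOn f (Icc 0 1)) (hp : ∀ s ∈ Ioo (0 : ℝ) 1, 0 < (f s).re) :
    0 < (∫ s in (0 : ℝ)..1, f s).re := by
  rw [re_int hf]
  refine intervalIntegral.intervalIntegral_pos_of_pos_on ?_ hp one_pos
  exact iir (Complex.continuous_re.comp_continuousOn hf)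

lemma inv_re_pos {z : ℂ} (h : 0 < z.re) : 0 < (z⁻¹).re := by
  rw [Complex.inv_re]
  exact div_pos h (Complex.normSq_pos.mpr (ne_zero_of_re h))

lemma T_re_pos {m : ℝ} (hm : 1 ≤ m) {w : ℂ} (hw : 0 < w.re) : 0 < (T m w).re := by
  refine int_re_pos (contOn_T hm hw) (fun s hs => ?_)
  rw [Complex.re_ofReal_mul]
  exact mul_pos (dn_pos hm hs.1) (inv_re_pos (R_re hs.1.le hs.2.le hw))

lemma T_ne {m : ℝ} (hm : 1 ≤ m) {w : ℂ} (hw : 0 < w.re) : T m w ≠ 0 :=
  ne_zero_of_re (T_re_pos hm hw)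

/-- the auxiliary kernel -/
noncomputable def J (m : ℝ) (w : ℂ) : ℂ :=
  ∫ s in (0 : ℝ)..1, ((dn m s : ℝ) : ℂ) * ((1 - (s : ℂ)) / (R s w + (R s w) ^ 2 / w))

lemma den_re {s : ℝ} (h0 : 0 ≤ s) (h1 : s ≤ 1) {w : ℂ} (hw : 0 < w.re) :
    0 < (R s w + (R s w) ^ 2 / w).re := by
  have hw0 := ne_zero_of_re hw
  have h2 : (R s w) ^ 2 / w = ((1 - s : ℝ) : ℂ) * w⁻¹ + (s : ℂ) * w := by
    rw [R_sq]; push_cast; field_simp
  rw [h2, Complex.add_re, Complex.add_re, Complex.re_ofReal_mul, Complex.re_ofReal_mul]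
  have h3 := R_re h0 h1 hw
  have h4 := inv_re_pos hw
  have h5 : 0 ≤ (1 - s) * (w⁻¹).re := mul_nonneg (by linarith) h4.le
  have h6 : 0 ≤ s * w.re := mul_nonneg h0 hw.le
  linarith

lemma contOn_J {m : ℝ} (hm : 1 ≤ m) {w : ℂ} (hw : 0 < w.re) :
    ContinuousOn (fun s : ℝ => ((dn m s : ℝ) : ℂ) * ((1 - (s : ℂ)) / (R s w + (R s w) ^ 2 / w)))
      (Icc 0 1) := by
  refine ContinuousOn.mul ?_ (ContinuousOn.div ?_ ?_
    (fun s hs => ne_zero_of_re (den_re hs.1 hs.2 hw)))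
  · exact (Complex.continuous_ofReal.comp (continuous_dn hm)).continuousOn
  · fun_prop
  · exact (continuousOn_R_s hw).add (((continuousOn_R_s hw).pow 2).div_const _)

lemma J_re_pos {m : ℝ} (hm : 1 ≤ m) {w : ℂ} (hw : 0 < w.re) : 0 < (J m w).re := by
  refine int_re_pos (contOn_J hm hw) (fun s hs => ?_)
  rw [Complex.re_ofReal_mul]
  refine mul_pos (dn_pos hm hs.1) ?_
  have h1 : (1 - (s : ℂ)) / (R s w + (R s w) ^ 2 / w) =
      ((1 - s : ℝ) : ℂ) * (R s w + (R s w) ^ 2 / w)⁻¹ := by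
    push_cast; rw [div_eq_mul_inv]
  rw [h1, Complex.re_ofReal_mul]
  exact mul_pos (by linarith [hs.2]) (inv_re_pos (den_re hs.1.le hs.2.le hw))

lemma int_dn_c {m : ℝ} (hm : 1 ≤ m) : ∫ s in (0 : ℝ)..1, ((dn m s : ℝ) : ℂ) = 1 := by
  rw [intervalIntegral.integral_ofReal, integral_dn hm]; simp

lemma wT_sub_one {m : ℝ} (hm : 1 ≤ m) {w : ℂ} (hw : 0 < w.re) :
    w * (w * T m w - 1) = (w ^ 2 - 1) * J m w := by
  have hw0 := ne_zero_of_re hw
  have hdn : ContinuousOn (fun s : ℝ => ((dn m s : ℝ) : ℂ)) (Icc 0 1) :=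
    (Complex.continuous_ofReal.comp (continuous_dn hm)).continuousOn
  have h1 : w * (w * T m w - 1) = ∫ s in (0 : ℝ)..1,
      (w * (w * (((dn m s : ℝ) : ℂ) * (R s w)⁻¹) - ((dn m s : ℝ) : ℂ))) := by
    rw [intervalIntegral.integral_const_mul, intervalIntegral.integral_sub, int_dn_c hm,
      intervalIntegral.integral_const_mul]
    · rfl
    · exact (ii (contOn_T hm hw)).const_mul _
    · exact ii hdn
  rw [h1]
  unfold J
  rw [← intervalIntegral.integral_const_mul]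
  refine intervalIntegral.integral_congr (fun s hs => ?_)
  rw [uIcc_of_le zero_le_one] at hs
  have hR := R_ne hs.1 hs.2 hw
  have hwR : w + R s w ≠ 0 := by
    apply ne_zero_of_re
    rw [Complex.add_re]
    linarith [R_re hs.1 hs.2 hw]
  have h2 := R_sq s w
  have h3 : R s w + (R s w) ^ 2 / w = R s w * (w + R s w) / w := by
    field_simp
  rw [h3]
  have h4 : (1 - (s : ℂ)) * (w ^ 2 - 1) = (w - R s w) * (w + R s w) := by
    linear_combination h2
  field_simp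
  linear_combination (-((dn m s : ℝ) : ℂ)) * h4

lemma sq_ne_one {w : ℂ} (hw : 0 < w.re) (h1 : w ≠ 1) : w ^ 2 - 1 ≠ 0 := by
  intro h
  have : (w - 1) * (w + 1) = 0 := by linear_combination h
  rcases mul_eq_zero.mp this with h | h
  · exact h1 (sub_eq_zero.mp h)
  · have h3 : (w + 1).re = 0 := by rw [h]; simp
    simp at h3; linarith

lemma neg_wT'_re_pos {m : ℝ} (hm : 1 ≤ m) {w : ℂ} (hw : 0 < w.re) : 0 < (-(w * T' m w)).re := by
  by_cases h1 : w = 1
  · subst h1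
    have h2 : -((1 : ℂ) * T' m 1) = ∫ s in (0 : ℝ)..1, ((dn m s * s : ℝ) : ℂ) := by
      unfold T'
      rw [one_mul, ← intervalIntegral.integral_neg]
      refine intervalIntegral.integral_congr (fun s _ => ?_)
      simp [R_at_one]
    rw [h2]
    refine int_re_pos ?_ (fun s hs => ?_)
    · exact (Complex.continuous_ofReal.comp ((continuous_dn hm).mul continuous_id)).continuousOn
    · rw [Complex.ofReal_re]
      exact mul_pos (dn_pos hm hs.1) hs.1
  · have h2 := sq_ne_one hw h1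
    have h3 : -(w * T' m w) = ((2 * m : ℝ) : ℂ) * J m w := by
      have h4 := ode_T hm hw
      have h5 := wT_sub_one hm hw
      apply mul_left_cancel₀ h2
      push_cast
      linear_combination (-w) * h4 + 2 * m * h5
    rw [h3, Complex.re_ofReal_mul]
    exact mul_pos (by linarith) (J_re_pos hm hw)

lemma T'_ne {m : ℝ} (hm : 1 ≤ m) {w : ℂ} (hw : 0 < w.re) : T' m w ≠ 0 := by
  intro h
  have := neg_wT'_re_pos hm hw
  rw [h] at this; simp at this

lemma T_one {m : ℝ} (hm : 1 ≤ m) : T m 1 = 1 := by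
  unfold T
  simp only [R_at_one, inv_one, mul_one]
  exact int_dn_c hm

theorem T_inj {m : ℝ} (hm : 1 ≤ m) {w₁ w₂ : ℂ} (h1 : 0 < w₁.re) (h2 : 0 < w₂.re)
    (h : T m w₁ = T m w₂) : w₁ = w₂ := by
  by_contra hne
  set l₁ := Complex.log w₁
  set l₂ := Complex.log w₂
  have e1 : Complex.exp l₁ = w₁ := Complex.exp_log (ne_zero_of_re h1)
  have e2 : Complex.exp l₂ = w₂ := Complex.exp_log (ne_zero_of_re h2)
  have hd : l₂ - l₁ ≠ 0 := by
    intro hh
    apply hne
    rw [← e1, ← e2, sub_eq_zero.mp hh]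
  have a1 : |l₁.im| < Real.pi / 2 := by
    rw [Complex.log_im]; exact Complex.abs_arg_lt_pi_div_two_iff.mpr (Or.inl h1)
  have a2 : |l₂.im| < Real.pi / 2 := by
    rw [Complex.log_im]; exact Complex.abs_arg_lt_pi_div_two_iff.mpr (Or.inl h2)
  have hstrip : ∀ t ∈ Icc (0 : ℝ) 1, 0 < (Complex.exp (l₁ + t * (l₂ - l₁))).re := by
    intro t ht
    rw [Complex.exp_re]
    refine mul_pos (Real.exp_pos _) (Real.cos_pos_of_mem_Ioo ?_)
    have him : (l₁ + t * (l₂ - l₁)).im = (1 - t) * l₁.im + t * l₂.im := by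
      simp; ring
    rw [him]
    rw [abs_lt] at a1 a2
    have hc : Convex ℝ (Ioo (-(Real.pi / 2)) (Real.pi / 2)) := convex_Ioo _ _
    have := hc (x := l₁.im) ⟨a1.1, a1.2⟩ (y := l₂.im) ⟨a2.1, a2.2⟩ (a := 1 - t) (b := t)
      (by linarith [ht.2]) ht.1 (by ring)
    simpa [smul_eq_mul] using this
  have hder : ∀ t ∈ Icc (0 : ℝ) 1, HasDerivAt
      (fun t : ℝ => (T m (Complex.exp (l₁ + t * (l₂ - l₁))) / (l₂ - l₁)).re)
      ((Complex.exp (l₁ + t * (l₂ - l₁)) * T' m (Complex.exp (l₁ + t * (l₂ - l₁)))).re) t := by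
    intro t ht
    have d1 : HasDerivAt (fun z : ℂ => l₁ + z * (l₂ - l₁)) (l₂ - l₁) (t : ℂ) := by
      simpa using ((hasDerivAt_id (t : ℂ)).mul_const (l₂ - l₁)).const_add l₁
    have d2 := d1.cexp
    have d3 := HasDerivAt.comp (t : ℂ) (hasDerivAt_T hm (hstrip t ht)) d2
    have d4 := (d3.div_const (l₂ - l₁)).comp_ofReal
    have d5 := Complex.reCLM.hasFDerivAt.comp_hasDerivAt t d4
    refine d5.congr_deriv ?_
    simp only [Complex.reCLM_apply]
    congr 1
    field_simp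
  obtain ⟨c, hc, hc2⟩ := exists_hasDerivAt_eq_slope _ _ (zero_lt_one' ℝ)
    (fun t ht => (hder t ht).continuousAt.continuousWithinAt)
    (fun t ht => hder t (Ioo_subset_Icc_self ht))
  have hpos := neg_wT'_re_pos hm (hstrip c (Ioo_subset_Icc_self hc))
  have : (1 : ℝ) - 0 ≠ 0 := by norm_num
  simp only [Complex.ofReal_one, one_mul, Complex.ofReal_zero, zero_mul, add_zero,
    add_sub_cancel, e1, e2, h, sub_self, zero_div] at hc2
  rw [Complex.neg_re, hc2] at hpos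
  simp at hpos

/-! lower bound -/

lemma R_im_sign {s : ℝ} (h0 : 0 ≤ s) (h1 : s ≤ 1) {w : ℂ} (hw : 0 < w.re) {σ : ℝ}
    (hσ : 0 ≤ σ * w.im) : 0 ≤ σ * (R s w).im := by
  have h2 := congrArg Complex.im (R_sq s w)
  have h3 : (R s w ^ 2).im = 2 * (R s w).re * (R s w).im := by
    rw [pow_two, Complex.mul_im]; ring
  have h4 : (1 - (s : ℂ) + s * w ^ 2).im = 2 * s * w.re * w.im := by
    simp [pow_two]; ring
  rw [h3, h4] at h2
  have hR := R_re h0 h1 hw
  have h5 : (R s w).re * (σ * (R s w).im) = s * w.re * (σ * w.im) := by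
    linear_combination (σ / 2) * h2
  have h6 : 0 ≤ (R s w).re * (σ * (R s w).im) := by rw [h5]; positivity
  by_contra hneg
  push Not at hneg
  nlinarith

lemma R_norm_le {s : ℝ} (h0 : 0 ≤ s) (h1 : s ≤ 1) {w : ℂ} (hw : 0 < w.re) :
    ‖R s w‖ ≤ ‖1 + w‖ := by
  have h2 : ‖R s w‖ ^ 2 ≤ 1 + ‖w‖ ^ 2 := by
    rw [← norm_pow, R_sq]
    calc ‖1 - (s : ℂ) + s * w ^ 2‖ ≤ ‖1 - (s : ℂ)‖ + ‖(s : ℂ) * w ^ 2‖ := norm_add_le _ _
      _ = (1 - s) + s * ‖w‖ ^ 2 := by
          rw [norm_mul, norm_pow, Complex.norm_real, Real.norm_eq_abs, abs_of_nonneg h0]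
          congr 1
          rw [← Complex.ofReal_one, ← Complex.ofReal_sub, Complex.norm_real, Real.norm_eq_abs,
            abs_of_nonneg (by linarith)]
      _ ≤ 1 + ‖w‖ ^ 2 := by nlinarith [norm_nonneg w, sq_nonneg ‖w‖]
  have h3 : 1 + ‖w‖ ^ 2 ≤ ‖1 + w‖ ^ 2 := by
    rw [← Complex.normSq_eq_norm_sq, ← Complex.normSq_eq_norm_sq, Complex.normSq_apply,
      Complex.normSq_apply]
    simp only [Complex.add_re, Complex.one_re, Complex.add_im, Complex.one_im]
    nlinarith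
  exact le_of_sq_le_sq (h2.trans h3) (norm_nonneg _)

theorem T_lower {m : ℝ} (hm : 1 ≤ m) {w : ℂ} (hw : 0 < w.re) :
    1 ≤ 2 * ‖T m w‖ * ‖1 + w‖ := by
  -- sign of the imaginary part
  obtain ⟨σ, hσ, hσ2⟩ : ∃ σ : ℝ, (σ = 1 ∨ σ = -1) ∧ 0 ≤ σ * w.im := by
    rcases le_total 0 w.im with h | h
    · exact ⟨1, Or.inl rfl, by linarith⟩
    · exact ⟨-1, Or.inr rfl, by linarith⟩
  have hσa : |σ| = 1 := by rcases hσ with h | h <;> simp [h]
  have hσs : σ ^ 2 = 1 := by rcases hσ with h | h <;> simp [h]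
  have hnw : 0 < ‖1 + w‖ := by
    apply norm_pos_iff.mpr
    apply ne_zero_of_re
    simp; linarith
  have hc := contOn_T hm hw
  have hre := re_int hc
  have him := im_int hc
  have hcr : ContinuousOn (fun s : ℝ => (((dn m s : ℝ) : ℂ) * (R s w)⁻¹).re) (Icc 0 1) :=
    Complex.continuous_re.comp_continuousOn hc
  have hci : ContinuousOn (fun s : ℝ => (((dn m s : ℝ) : ℂ) * (R s w)⁻¹).im) (Icc 0 1) :=
    Complex.continuous_im.comp_continuousOn hc
  have h1 : ‖1 + w‖⁻¹ ≤ (T m w).re - σ * (T m w).im := by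
    unfold T
    rw [hre, him, ← intervalIntegral.integral_const_mul, ← intervalIntegral.integral_sub (iir hcr)
      ((iir hci).const_mul σ)]
    have h2 : ‖1 + w‖⁻¹ = ∫ s in (0 : ℝ)..1, dn m s * ‖1 + w‖⁻¹ := by
      rw [intervalIntegral.integral_mul_const, integral_dn hm, one_mul]
    rw [h2]
    refine intervalIntegral.integral_mono_on zero_le_one ?_ ?_ (fun s hs => ?_)
    · exact iir ((continuous_dn hm).mul continuous_const).continuousOn
    · exact iir (hcr.sub (hci.const_smul σ))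
    · have hRr := R_re hs.1 hs.2 hw
      have hRi := R_im_sign hs.1 hs.2 hw hσ2
      have hRn := R_norm_le hs.1 hs.2 hw
      have hRp : 0 < ‖R s w‖ := norm_pos_iff.mpr (ne_zero_of_re hRr)
      rw [Complex.re_ofReal_mul, Complex.im_ofReal_mul, Complex.inv_re, Complex.inv_im,
        Complex.normSq_eq_norm_sq]
      have h3 : ‖R s w‖ ≤ (R s w).re + σ * (R s w).im := by
        apply le_of_sq_le_sq _ (by positivity)
        rw [← Complex.normSq_eq_norm_sq, Complex.normSq_apply]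
        nlinarith [mul_nonneg hRr.le hRi]
      have h4 : dn m s * ((R s w).re / ‖R s w‖ ^ 2) - σ * (dn m s * (-(R s w).im / ‖R s w‖ ^ 2)) =
          dn m s * (((R s w).re + σ * (R s w).im) / ‖R s w‖ ^ 2) := by ring
      rw [h4]
      refine mul_le_mul_of_nonneg_left ?_ (dn_nonneg hm hs.1)
      rw [inv_eq_one_div, div_le_div_iff₀ hnw (by positivity)]
      nlinarith
  have h5 : (T m w).re - σ * (T m w).im ≤ 2 * ‖T m w‖ := by
    have a1 := Complex.abs_re_le_norm (T m w)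
    have a2 := Complex.abs_im_le_norm (T m w)
    have a3 : |σ * (T m w).im| = |(T m w).im| := by rw [abs_mul, hσa, one_mul]
    have a4 := neg_abs_le (σ * (T m w).im)
    have a5 := le_abs_self (T m w).re
    linarith
  have h6 := mul_le_mul_of_nonneg_right (h1.trans h5) hnw.le
  rwa [inv_mul_cancel₀ hnw.ne'] at h6

end Pool.Agent.K4H52.AC
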