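import Pool.Agent.K4H52.AC.Out

/-!
# Subordination: the solution of the Briot-Bouquet equation is subordinate to the extremal one
-/

open Complex MeasureTheory Set Filter Topology Metric

namespace Pool.Agent.K4H52.AC

/-- the extremal function on the disc -/
noncomputable def T0 (m : ℝ) (z : ℂ) : ℂ := T m (mob z)

lemma hasDerivAt_T0 {m : ℝ} (hm : 1 ≤ m) {z : ℂ} (hz : ‖z‖ < 1) :
    HasDerivAt (T0 m) (T' m (mob z) * (2 / (1 - z) ^ 2)) z :=
  (hasDerivAt_T hm (mob_re hz)).comp z (hasDerivAt_mob hz)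

lemma T0_diff {m : ℝ} (hm : 1 ≤ m) : DifferentiableOn ℂ (T0 m) (ball 0 1) := fun z hz =>
  (hasDerivAt_T0 hm (by simpa using hz)).differentiableAt.differentiableWithinAt

lemma T0_deriv_ne {m : ℝ} (hm : 1 ≤ m) {z : ℂ} (hz : ‖z‖ < 1) : deriv (T0 m) z ≠ 0 := by
  rw [(hasDerivAt_T0 hm hz).deriv]
  exact mul_ne_zero (T'_ne hm (mob_re hz)) (div_ne_zero two_ne_zero (pow_ne_zero 2 (one_sub_ne hz)))

lemma T0_zero {m : ℝ} (hm : 1 ≤ m) : T0 m 0 = 1 := by
  unfold T0; rw [mob_zero, T_one hm]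

lemma T0_ode {m : ℝ} (hm : 1 ≤ m) {z : ℂ} (hz : ‖z‖ < 1) :
    z * deriv (T0 m) z = m * (1 - mob z * T0 m z) := by
  have h1 := ode_T hm (mob_re hz)
  rw [mob_sq_sub hz] at h1
  rw [(hasDerivAt_T0 hm hz).deriv]
  unfold T0
  have h2 : z * (T' m (mob z) * (2 / (1 - z) ^ 2)) = (4 * z / (1 - z) ^ 2 * T' m (mob z)) / 2 := by
    ring
  rw [h2, h1]
  ring

lemma T0_inj {m : ℝ} (hm : 1 ≤ m) : InjOn (T0 m) (ball 0 1) := by
  intro a ha b hb h
  have ha' : ‖a‖ < 1 := by simpa using ha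
  have hb' : ‖b‖ < 1 := by simpa using hb
  have := T_inj hm (mob_re ha') (mob_re hb') h
  rw [← cay_mob ha', ← cay_mob hb', this]

lemma strict {g : ℂ → ℂ} (hg : DifferentiableOn ℂ g (ball 0 1)) {z : ℂ} (hz : z ∈ ball (0 : ℂ) 1) :
    HasStrictDerivAt g (deriv g z) z :=
  (hg.analyticAt (isOpen_ball.mem_nhds hz)).hasStrictDerivAt

/-- derivative of the inverse function -/
lemma inv_hasDerivAt {g : ℂ → ℂ} (hg : DifferentiableOn ℂ g (ball 0 1)) (hinj : InjOn g (ball 0 1))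
    {z : ℂ} (hz : z ∈ ball (0 : ℂ) 1) (hg' : deriv g z ≠ 0) :
    HasDerivAt (Function.invFunOn g (ball 0 1)) (deriv g z)⁻¹ (g z) := by
  have hs := strict hg hz
  have h1 : HasStrictDerivAt (hs.localInverse g (deriv g z) z hg') (deriv g z)⁻¹ (g z) :=
    hs.to_localInverse hg'
  refine h1.hasDerivAt.congr_of_eventuallyEq ?_
  have h2 : ∀ᶠ y in 𝓝 (g z), g (hs.localInverse g (deriv g z) z hg' y) = y := by
    have := (hs.hasStrictFDerivAt_equiv hg').eventually_right_inverse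
    exact this
  have h3 : hs.localInverse g (deriv g z) z hg' (g z) = z := by
    exact (hs.hasStrictFDerivAt_equiv hg').localInverse_apply_image
  have h4 : ∀ᶠ y in 𝓝 (g z), hs.localInverse g (deriv g z) z hg' y ∈ ball (0 : ℂ) 1 := by
    have hc : ContinuousAt (hs.localInverse g (deriv g z) z hg') (g z) := h1.hasDerivAt.continuousAt
    have := hc.preimage_mem_nhds (t := ball (0 : ℂ) 1) (by rw [h3]; exact isOpen_ball.mem_nhds hz)
    exact this
  filter_upwards [h2, h4] with y hy1 hy2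
  have hmem : ∃ x ∈ ball (0 : ℂ) 1, g x = y := ⟨_, hy2, hy1⟩
  exact hinj (Function.invFunOn_mem hmem) hy2 ((Function.invFunOn_eq hmem).trans hy1.symm)

lemma isOpen_image {g : ℂ → ℂ} (hg : DifferentiableOn ℂ g (ball 0 1))
    (hg' : ∀ z ∈ ball (0 : ℂ) 1, deriv g z ≠ 0) {ρ : ℝ} (hρ : ρ ≤ 1) : IsOpen (g '' ball 0 ρ) := by
  rw [isOpen_iff_mem_nhds]
  rintro _ ⟨z, hz, rfl⟩
  have hz1 : z ∈ ball (0 : ℂ) 1 := ball_subset_ball hρ hz
  rw [← (strict hg hz1).map_nhds_eq (hg' z hz1)]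
  exact image_mem_map (isOpen_ball.mem_nhds hz)

/-- Jack's lemma -/
lemma jack {ω : ℂ → ℂ} {z₀ : ℂ} {s ρ : ℝ} (hs : ‖z₀‖ = s) (hs0 : 0 < s) (hρ : 0 < ρ)
    (hd : ∀ z : ℂ, ‖z‖ ≤ s → DifferentiableAt ℂ ω z) (h0 : ω 0 = 0)
    (hle : ∀ z : ℂ, ‖z‖ ≤ s → ‖ω z‖ ≤ ρ) (heq : ‖ω z₀‖ = ρ) :
    ∃ k : ℝ, 1 ≤ k ∧ z₀ * deriv ω z₀ = k * ω z₀ := by
  have hdz : HasDerivAt ω (deriv ω z₀) z₀ := (hd z₀ hs.le).hasDerivAt
  set D := z₀ * deriv ω z₀ with hD
  -- angular derivative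
  have hang : ((starRingEnd ℂ) (ω z₀) * (D * I)).re = 0 := by
    have h1 : HasDerivAt (fun θ : ℂ => z₀ * Complex.exp (θ * I)) (z₀ * (Complex.exp (0 * I) * I)) 0 := by
      have := ((hasDerivAt_id (0 : ℂ)).mul_const I).cexp.const_mul z₀
      simpa using this
    have h2 : HasDerivAt (fun θ : ℂ => ω (z₀ * Complex.exp (θ * I)))
        (deriv ω z₀ * (z₀ * (Complex.exp (0 * I) * I))) 0 := by
      refine HasDerivAt.comp (0 : ℂ) ?_ h1
      simpa using hdz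
    have h3 : HasDerivAt (fun θ : ℝ => ω (z₀ * Complex.exp (θ * I)))
        (deriv ω z₀ * (z₀ * (Complex.exp (0 * I) * I))) 0 := by
      have h2' : HasDerivAt (fun θ : ℂ => ω (z₀ * Complex.exp (θ * I)))
        (deriv ω z₀ * (z₀ * (Complex.exp (0 * I) * I))) ((0 : ℝ) : ℂ) := by simpa using h2
      exact h2'.comp_ofReal
    have h4 := h3.norm_sq
    have h5 : IsLocalMax (fun θ : ℝ => ‖ω (z₀ * Complex.exp (θ * I))‖ ^ 2) 0 := by
      refine Filter.Eventually.of_forall (fun θ => ?_)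
      have h6 : ‖z₀ * Complex.exp (θ * I)‖ = s := by
        rw [norm_mul, Complex.norm_exp_ofReal_mul_I, mul_one, hs]
      have h7 := hle _ h6.le
      simp only [Complex.ofReal_zero, zero_mul, Complex.exp_zero, mul_one]
      rw [heq]
      exact pow_le_pow_left₀ (norm_nonneg _) h7 2
    have h6 := h5.hasDerivAt_eq_zero h4
    simp only [Complex.ofReal_zero, zero_mul, Complex.exp_zero, mul_one, one_mul] at h6
    rw [Complex.inner] at h6
    have h7 : deriv ω z₀ * (z₀ * I) = D * I := by rw [hD]; ring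
    rw [h7] at h6
    rw [mul_comm ((starRingEnd ℂ) (ω z₀))]
    linarith
  -- radial derivative
  have hrad : ρ ^ 2 ≤ ((starRingEnd ℂ) (ω z₀) * D).re := by
    have h1 : HasDerivAt (fun r : ℂ => r * z₀) z₀ 1 := by
      simpa using (hasDerivAt_id (1 : ℂ)).mul_const z₀
    have h2 : HasDerivAt (fun r : ℂ => ω (r * z₀)) (deriv ω z₀ * z₀) 1 := by
      refine HasDerivAt.comp (1 : ℂ) ?_ h1
      simpa using hdz
    have h3 : HasDerivAt (fun r : ℝ => ω (r * z₀)) (deriv ω z₀ * z₀) 1 := by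
      have h2' : HasDerivAt (fun r : ℂ => ω (r * z₀)) (deriv ω z₀ * z₀) ((1 : ℝ) : ℂ) := by
        simpa using h2
      exact h2'.comp_ofReal
    have h4 := h3.norm_sq
    have h5 : HasDerivAt (fun r : ℝ => ρ ^ 2 * r ^ 2) (ρ ^ 2 * (2 * 1)) 1 := by
      have := (hasDerivAt_pow 2 (1 : ℝ)).const_mul (ρ ^ 2)
      simpa using this
    have h6 := h4.sub h5
    have h7 : Tendsto (slope (fun r : ℝ => ‖ω (r * z₀)‖ ^ 2 - ρ ^ 2 * r ^ 2) 1) (𝓝[<] 1)
        (𝓝 (2 * inner ℝ (ω (((1 : ℝ) : ℂ) * z₀)) (deriv ω z₀ * z₀) - ρ ^ 2 * (2 * 1))) := by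
      refine (hasDerivAt_iff_tendsto_slope.mp h6).mono_left ?_
      exact nhdsWithin_mono _ (fun x hx => ne_of_lt hx)
    have h8 := ge_of_tendsto (b := 0) h7 (by
      filter_upwards [Ioo_mem_nhdsLT (zero_lt_one' ℝ)] with r hr
      rw [slope_def_field]
      refine div_nonneg_of_nonpos ?_ (by linarith [hr.2])
      have h9 : ‖(r : ℂ) * z₀‖ = r * s := by
        rw [norm_mul, Complex.norm_real, Real.norm_eq_abs, abs_of_pos hr.1, hs]
      have h10 : ‖ω (r * z₀)‖ ≤ ρ * r := by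
        have hdd : DifferentiableOn ℂ ω (ball 0 s) := fun z hz =>
          (hd z (by simpa using (mem_ball_zero_iff.mp hz).le)).differentiableWithinAt
        have hmt : MapsTo ω (ball 0 s) (closedBall (ω 0) ρ) := by
          intro z hz
          rw [h0, mem_closedBall_zero_iff]
          exact hle z (mem_ball_zero_iff.mp hz).le
        have := Complex.dist_le_div_mul_dist_of_mapsTo_ball hdd hmt (z := r * z₀)
          (by rw [mem_ball_zero_iff, h9]; nlinarith [hr.2])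
        rw [h0, dist_zero_right, dist_zero_right, h9] at this
        calc ‖ω (r * z₀)‖ ≤ ρ / s * (r * s) := this
          _ = ρ * r := by field_simp
      have h11 : ‖ω (r * z₀)‖ ^ 2 ≤ (ρ * r) ^ 2 := pow_le_pow_left₀ (norm_nonneg _) h10 2
      have h12 : ‖ω (((1 : ℝ) : ℂ) * z₀)‖ = ρ := by rw [Complex.ofReal_one, one_mul, heq]
      simp only [h12]
      nlinarith)
    rw [Complex.inner, Complex.ofReal_one, one_mul] at h8
    have h9 : deriv ω z₀ * z₀ = D := by rw [hD]; ring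
    rw [h9] at h8
    rw [mul_comm ((starRingEnd ℂ) (ω z₀))]
    linarith
  have hn : ω z₀ ≠ 0 := by
    rw [← norm_pos_iff, heq]; exact hρ
  set c := (starRingEnd ℂ) (ω z₀) with hc
  have hcc : c * ω z₀ = ((ρ ^ 2 : ℝ) : ℂ) := by
    rw [hc, mul_comm, Complex.mul_conj, Complex.normSq_eq_norm_sq, heq]
  have him : (c * D).im = 0 := by
    have : (c * (D * I)).re = -(c * D).im := by
      rw [← mul_assoc, Complex.mul_I_re]
    rw [this] at hang; linarith
  refine ⟨(c * D).re / ρ ^ 2, ?_, ?_⟩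
  · rw [le_div_iff₀ (by positivity), one_mul]; exact hrad
  · have h1 : c * D = (((c * D).re : ℝ) : ℂ) := by
      apply Complex.ext
      · simp
      · rw [him]; simp
    have hc0 : c ≠ 0 := by
      rw [hc]; simpa using hn
    apply mul_left_cancel₀ hc0
    have hρ' : (ρ : ℂ) ≠ 0 := by exact_mod_cast hρ.ne'
    generalize (c * D).re = κ at h1
    have h2 : c * (((κ / ρ ^ 2 : ℝ) : ℂ) * ω z₀) = (κ : ℂ) / (ρ : ℂ) ^ 2 * (c * ω z₀) := by
      push_cast; ring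
    rw [h2, hcc, h1]
    push_cast
    field_simp

/-- the geometric inequality -/
lemma geom {η ζ : ℂ} (h1 : ‖η‖ < ‖ζ‖) (h2 : ‖ζ‖ < 1) :
    ((η - ζ) * (1 - ζ) / (ζ * (1 - η))).re < 0 := by
  have hζ : ζ ≠ 0 := by
    rw [← norm_pos_iff]; exact lt_of_le_of_lt (norm_nonneg _) h1
  have hη1 : ‖η‖ < 1 := h1.trans h2
  have h3 := one_sub_ne hη1
  set a := η / ζ with ha
  have hηa : η = a * ζ := by rw [ha]; field_simp
  have han : ‖a‖ < 1 := by
    rw [ha, norm_div, div_lt_one (norm_pos_iff.mpr hζ)]; exact h1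
  have e1 : (η - ζ) * (1 - ζ) / (ζ * (1 - η)) = -((1 - a) * (1 - ζ) * (starRingEnd ℂ) (1 - η)) /
      ((Complex.normSq (1 - η) : ℝ) : ℂ) := by
    rw [← Complex.mul_conj]
    have h4 : (starRingEnd ℂ) (1 - η) ≠ 0 := (map_ne_zero _).mpr h3
    rw [hηa] at h3 h4 ⊢
    field_simp
    ring
  rw [e1, Complex.div_ofReal_re, Complex.neg_re]
  have hns : 0 < Complex.normSq (1 - η) := Complex.normSq_pos.mpr h3
  apply div_neg_of_neg_of_pos _ hns
  rw [neg_lt_zero]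
  have e2 : ((1 - a) * (1 - ζ) * (starRingEnd ℂ) (1 - η)).re =
      1 - ‖a‖ ^ 2 * ‖ζ‖ ^ 2 - ζ.re * (1 - ‖a‖ ^ 2) - a.re * (1 - ‖ζ‖ ^ 2) := by
    rw [hηa, ← Complex.normSq_eq_norm_sq, ← Complex.normSq_eq_norm_sq, Complex.normSq_apply,
      Complex.normSq_apply]
    simp [Complex.mul_re, Complex.mul_im]
    ring
  rw [e2]
  have h5 := Complex.re_le_norm ζ
  have h6 := Complex.re_le_norm a
  set x := ‖a‖
  set ρ := ‖ζ‖
  have hx0 : 0 ≤ x := norm_nonneg _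
  have hρ0 : 0 ≤ ρ := norm_nonneg _
  have h7 : 0 < (1 - ρ) * (1 - x) * (1 - x * ρ) := by
    refine mul_pos (mul_pos (by linarith) (by linarith)) ?_
    nlinarith
  have h8 : ζ.re * (1 - x ^ 2) ≤ ρ * (1 - x ^ 2) :=
    mul_le_mul_of_nonneg_right h5 (by nlinarith)
  have h9 : a.re * (1 - ρ ^ 2) ≤ x * (1 - ρ ^ 2) :=
    mul_le_mul_of_nonneg_right h6 (by nlinarith)
  nlinarith

/-- Values of a solution are values of the extremal solution. -/
theorem lift_mem {m : ℝ} (hm : 1 ≤ m) {p F : ℂ → ℂ} (hp : DifferentiableOn ℂ p (ball 0 1))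
    (hpr : ∀ z ∈ ball (0 : ℂ) 1, 0 < (p z).re) (hp0 : p 0 = 1)
    (hF : DifferentiableOn ℂ F (ball 0 1)) (hF0 : F 0 = 1)
    (hode : ∀ z ∈ ball (0 : ℂ) 1, z * deriv F z = m * (1 - p z * F z)) :
    ∀ z ∈ ball (0 : ℂ) 1, ∃ ζ ∈ ball (0 : ℂ) 1, T0 m ζ = F z := by
  intro z₁ hz₁
  by_contra hcon
  push Not at hcon
  set t := ‖z₁‖ with ht
  have ht1 : t < 1 := by simpa using hz₁
  set ρ := (1 + t) / 2 with hρ
  have htρ : t < ρ := by rw [hρ]; linarith
  have hρ1 : ρ < 1 := by rw [hρ]; linarith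
  have hρ0 : 0 < ρ := by rw [hρ]; have := norm_nonneg z₁; linarith
  set V := T0 m '' ball 0 ρ with hV
  set K := T0 m '' closedBall 0 ρ with hK
  have hVo : IsOpen V := isOpen_image (T0_diff hm) (fun z hz => T0_deriv_ne hm (by simpa using hz)) hρ1.le
  have hKc : IsCompact K := (isCompact_closedBall (0 : ℂ) ρ).image_of_continuousOn
    ((T0_diff hm).continuousOn.mono (closedBall_subset_ball hρ1))
  have hVK : V ⊆ K := image_mono ball_subset_closedBall
  set B := {z ∈ closedBall (0 : ℂ) t | F z ∉ V} with hB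
  have hFc : ContinuousOn F (closedBall 0 t) := hF.continuousOn.mono (closedBall_subset_ball ht1)
  have hBc : IsCompact B := by
    have : B = closedBall (0 : ℂ) t ∩ F ⁻¹' Vᶜ := rfl
    rw [this]
    exact (isCompact_closedBall (0 : ℂ) t).of_isClosed_subset
      (hFc.preimage_isClosed_of_isClosed isClosed_closedBall hVo.isClosed_compl) inter_subset_left
  have hz₁B : z₁ ∈ B := by
    refine ⟨by simp [ht], ?_⟩
    rintro ⟨ζ, hζ, hζ2⟩
    exact hcon ζ (ball_subset_ball hρ1.le hζ) hζ2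
  obtain ⟨z₀, hz₀B, hmin⟩ := hBc.exists_isMinOn ⟨z₁, hz₁B⟩ continuous_norm.continuousOn
  set s := ‖z₀‖ with hs
  have hst : s ≤ t := by simpa using hz₀B.1
  have hin : ∀ z : ℂ, ‖z‖ < s → F z ∈ V := by
    intro z hz
    by_contra hneg
    have : z ∈ B := ⟨by simpa using hz.le.trans hst, hneg⟩
    have h2 : ‖z₀‖ ≤ ‖z‖ := hmin this
    linarith
  have hs0 : 0 < s := by
    rcases (norm_nonneg z₀).eq_or_lt with h | h
    · exfalso
      have h2 : z₀ = 0 := norm_eq_zero.mp h.symm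
      apply hz₀B.2
      rw [h2, hF0]
      exact ⟨0, by simpa using hρ0, T0_zero hm⟩
    · exact h
  have hFat : ∀ z : ℂ, ‖z‖ ≤ s → DifferentiableAt ℂ F z := fun z hz =>
    hF.differentiableAt (isOpen_ball.mem_nhds (by simpa using lt_of_le_of_lt (hz.trans hst) ht1))
  have hinK : ∀ z : ℂ, ‖z‖ ≤ s → F z ∈ K := by
    intro z hz
    have hlim : Tendsto (fun r : ℝ => F (r * z)) (𝓝[<] 1) (𝓝 (F z)) := by
      have h1 : Tendsto (fun r : ℝ => (r : ℂ) * z) (𝓝[<] 1) (𝓝 z) := by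
        have : Tendsto (fun r : ℝ => (r : ℂ) * z) (𝓝 1) (𝓝 (((1 : ℝ) : ℂ) * z)) := by
          apply Continuous.tendsto; fun_prop
        rw [Complex.ofReal_one, one_mul] at this
        exact this.mono_left nhdsWithin_le_nhds
      exact (hFat z hz).continuousAt.tendsto.comp h1
    refine hKc.isClosed.mem_of_tendsto hlim ?_
    filter_upwards [Ioo_mem_nhdsLT (zero_lt_one' ℝ)] with r hr
    apply hVK
    apply hin
    rw [norm_mul, Complex.norm_real, Real.norm_eq_abs, abs_of_pos hr.1]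
    nlinarith [norm_nonneg z, hr.2, hr.1]
  set ω : ℂ → ℂ := fun z => Function.invFunOn (T0 m) (ball 0 1) (F z) with hω
  have hωspec : ∀ z : ℂ, ‖z‖ ≤ s → ‖ω z‖ ≤ ρ ∧ T0 m (ω z) = F z := by
    intro z hz
    obtain ⟨ζ, hζ, hζ2⟩ := hinK z hz
    have hζ1 : ζ ∈ ball (0 : ℂ) 1 := closedBall_subset_ball hρ1 hζ
    have hmem : ∃ x ∈ ball (0 : ℂ) 1, T0 m x = F z := ⟨ζ, hζ1, hζ2⟩
    have h1 : ω z = ζ := T0_inj hm (Function.invFunOn_mem hmem) hζ1
      ((Function.invFunOn_eq hmem).trans hζ2.symm)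
    rw [h1]
    exact ⟨by simpa using hζ, hζ2⟩
  have hωd : ∀ z : ℂ, ‖z‖ ≤ s → HasDerivAt ω ((deriv (T0 m) (ω z))⁻¹ * deriv F z) z := by
    intro z hz
    obtain ⟨h1, h2⟩ := hωspec z hz
    have h3 : ‖ω z‖ < 1 := lt_of_le_of_lt h1 hρ1
    have h4 := inv_hasDerivAt (T0_diff hm) (T0_inj hm) (z := ω z) (by simpa using h3)
      (T0_deriv_ne hm h3)
    rw [h2] at h4
    exact h4.comp z (hFat z hz).hasDerivAt
  have hω0 : ω 0 = 0 := by
    obtain ⟨h1, h2⟩ := hωspec 0 (by simpa using hs0.le)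
    apply T0_inj hm (by simpa using lt_of_le_of_lt h1 hρ1) (by simp)
    rw [h2, hF0, T0_zero hm]
  have hω1 : ‖ω z₀‖ = ρ := by
    obtain ⟨h1, h2⟩ := hωspec z₀ hs.ge
    rcases h1.eq_or_lt with h | h
    · exact h
    · exfalso
      exact hz₀B.2 ⟨ω z₀, by simpa using h, h2⟩
  obtain ⟨k, hk1, hk⟩ := jack hs.symm hs0 hρ0 (fun z hz => (hωd z hz).differentiableAt) hω0
    (fun z hz => (hωspec z hz).1) hω1
  set ζ₀ := ω z₀ with hζ₀
  have hζ₀1 : ‖ζ₀‖ < 1 := by rw [hω1]; exact hρ1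
  have hτ : T0 m ζ₀ = F z₀ := (hωspec z₀ hs.ge).2
  have hz₀1 : z₀ ∈ ball (0 : ℂ) 1 := by simpa using lt_of_le_of_lt hst ht1
  have hd0 := T0_deriv_ne hm hζ₀1
  have e1 : z₀ * deriv F z₀ = k * (ζ₀ * deriv (T0 m) ζ₀) := by
    have h1 := (hωd z₀ hs.ge).deriv
    rw [h1] at hk
    have h2 : z₀ * deriv F z₀ = (z₀ * ((deriv (T0 m) ζ₀)⁻¹ * deriv F z₀)) * deriv (T0 m) ζ₀ := by
      field_simp
    rw [h2, hk]; ring
  rw [hode z₀ hz₀1, T0_ode hm hζ₀1, hτ] at e1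
  have hm0 : (m : ℂ) ≠ 0 := by exact_mod_cast (by linarith : m ≠ 0)
  set P := mob ζ₀ with hP
  have hPr : 0 < P.re := mob_re hζ₀1
  have hζ₀ne : ζ₀ ≠ 0 := by
    rw [← norm_pos_iff, hω1]; exact hρ0
  have hP2 : P ^ 2 - 1 ≠ 0 := by
    rw [hP, mob_sq_sub hζ₀1]
    exact div_ne_zero (by simp [hζ₀ne]) (pow_ne_zero 2 (one_sub_ne hζ₀1))
  have hTP : T m P = F z₀ := hτ
  have hFne : F z₀ ≠ 0 := by rw [← hTP]; exact T_ne hm hPr
  -- the quotient
  have e2 : (p z₀ - P) / (P ^ 2 - 1) = -(((k - 1) / (2 * m) : ℝ) : ℂ) * (T' m P / T m P) := by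
    have h1 := ode_T hm hPr
    rw [hTP] at h1 ⊢
    have h2 : 1 - p z₀ * F z₀ = k * (1 - P * F z₀) := by
      apply mul_left_cancel₀ hm0
      linear_combination e1
    rw [div_eq_iff hP2]
    push_cast
    field_simp
    linear_combination (-2 * (m : ℂ)) * h2 + (k - 1) * h1
  have e3 : 0 ≤ ((p z₀ - P) / (P ^ 2 - 1)).re := by
    rw [e2, ← Complex.ofReal_neg, Complex.re_ofReal_mul]
    have h1 := out hm hPr
    have h2 : 0 ≤ (k - 1) / (2 * m) := div_nonneg (by linarith) (by linarith)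
    nlinarith
  -- Schwarz for `p`
  set η := cay (p z₀) with hη
  have hηn : ‖η‖ ≤ s := by
    have hd : DifferentiableOn ℂ (fun z => cay (p z)) (ball 0 1) := by
      unfold cay
      refine DifferentiableOn.div (hp.sub_const 1) (hp.add_const 1) (fun z hz => ?_)
      exact add_one_ne (hpr z hz)
    have hmt : MapsTo (fun z => cay (p z)) (ball 0 1) (closedBall (cay (p 0)) 1) := by
      intro z hz
      rw [hp0]
      simp only [cay, sub_self, zero_div, mem_closedBall_zero_iff]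
      exact (cay_norm (hpr z hz)).le
    have h1 := Complex.dist_le_div_mul_dist_of_mapsTo_ball hd hmt hz₀1
    rw [hp0] at h1
    simp only [cay, sub_self, zero_div, dist_zero_right, div_one, one_mul] at h1
    exact h1
  have hη1 : ‖η‖ < ‖ζ₀‖ := by rw [hω1]; exact lt_of_le_of_lt hηn (lt_of_le_of_lt hst htρ)
  have hpη : p z₀ = mob η := (mob_cay (hpr z₀ hz₀1)).symm
  have e4 : (p z₀ - P) / (P ^ 2 - 1) = (2⁻¹ : ℝ) * ((η - ζ₀) * (1 - ζ₀) / (ζ₀ * (1 - η))) := by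
    rw [hpη, hP, mob_sq_sub hζ₀1]
    have h1 := one_sub_ne hζ₀1
    have h2 := one_sub_ne (hη1.trans hζ₀1)
    unfold mob
    push_cast
    field_simp
    ring
  rw [e4, Complex.re_ofReal_mul] at e3
  have := geom hη1 hζ₀1
  nlinarith

/-- The subordination theorem. -/
theorem subord {m : ℝ} (hm : 1 ≤ m) {p F : ℂ → ℂ} (hp : DifferentiableOn ℂ p (ball 0 1))
    (hpr : ∀ z ∈ ball (0 : ℂ) 1, 0 < (p z).re) (hp0 : p 0 = 1)
    (hF : DifferentiableOn ℂ F (ball 0 1)) (hF0 : F 0 = 1)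
    (hode : ∀ z ∈ ball (0 : ℂ) 1, z * deriv F z = m * (1 - p z * F z)) :
    ∃ ω : ℂ → ℂ, DifferentiableOn ℂ ω (ball 0 1) ∧ ω 0 = 0 ∧ (∀ z ∈ ball (0 : ℂ) 1, ω z ∈ ball (0 : ℂ) 1) ∧
      ∀ z ∈ ball (0 : ℂ) 1, F z = T0 m (ω z) := by
  have hmem := lift_mem hm hp hpr hp0 hF hF0 hode
  refine ⟨fun z => Function.invFunOn (T0 m) (ball 0 1) (F z), ?_, ?_, ?_, ?_⟩
  · intro z hz
    have h1 := Function.invFunOn_mem (hmem z hz)
    have h2 := Function.invFunOn_eq (hmem z hz)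
    have h4 := inv_hasDerivAt (T0_diff hm) (T0_inj hm) h1 (T0_deriv_ne hm (by simpa using h1))
    rw [h2] at h4
    exact (h4.comp z (hF.differentiableAt (isOpen_ball.mem_nhds hz)).hasDerivAt).differentiableAt.differentiableWithinAt
  · have h0 : (0 : ℂ) ∈ ball (0 : ℂ) 1 := by simp
    exact T0_inj hm (Function.invFunOn_mem (hmem 0 h0)) h0
      ((Function.invFunOn_eq (hmem 0 h0)).trans (hF0.trans (T0_zero hm).symm))
  · intro z hz
    exact Function.invFunOn_mem (hmem z hz)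
  · intro z hz
    exact (Function.invFunOn_eq (hmem z hz)).symm

end Pool.Agent.K4H52.AC
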