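import Pool.Agent.K4H52.AC.Upper

/-!
# The extremal function belongs to the class
-/

open Complex MeasureTheory Set Filter Topology Metric
open Pool.Agent.Helper610.Bohr

namespace Pool.Agent.K4H52.AC

variable {m : ℝ}

/-- `f_α (z) / z` -/
noncomputable def phi (α : ℝ) (z : ℂ) : ℂ := ((1 - z) ^ 2)⁻¹ * (T0 α⁻¹ z) ^ (α : ℂ)

/-- the extremal function -/
noncomputable def ext (α : ℝ) (z : ℂ) : ℂ := z * phi α z

section

variable {α : ℝ}

lemma one_le_inv (h0 : 0 < α) (h1 : α < 1) : 1 ≤ α⁻¹ := by rw [one_le_inv₀ h0]; exact h1.le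

lemma phi_diff (h0 : 0 < α) (h1 : α < 1) : DifferentiableOn ℂ (phi α) (ball 0 1) := by
  have hm := one_le_inv h0 h1
  refine DifferentiableOn.mul (DifferentiableOn.inv (by fun_prop) (fun z hz => ?_))
    ((T0_diff hm).cpow_const (fun z hz => slit_of_re (T0_re hm hz)))
  exact pow_ne_zero 2 (one_sub_ne (by simpa using hz))

lemma phi_zero (h0 : 0 < α) (h1 : α < 1) : phi α 0 = 1 := by
  rw [phi, T0_zero (one_le_inv h0 h1)]; simp

lemma phi_ne (h0 : 0 < α) (h1 : α < 1) {z : ℂ} (hz : z ∈ ball (0 : ℂ) 1) : phi α z ≠ 0 := by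
  refine mul_ne_zero (inv_ne_zero (pow_ne_zero 2 (one_sub_ne (by simpa using hz)))) ?_
  rw [Ne, Complex.cpow_eq_zero_iff]
  exact fun h => T0_ne (one_le_inv h0 h1) hz h.1

/-- the logarithm of `phi` -/
noncomputable def uu (α : ℝ) (z : ℂ) : ℂ := -2 * Complex.log (1 - z) + α * Complex.log (T0 α⁻¹ z)

lemma one_sub_slit {z : ℂ} (hz : z ∈ ball (0 : ℂ) 1) : (1 - z) ∈ slitPlane := by
  left
  have h1 : ‖z‖ < 1 := by simpa using hz
  have := Complex.re_le_norm z
  simp; linarith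

lemma exp_uu (h0 : 0 < α) (h1 : α < 1) {z : ℂ} (hz : z ∈ ball (0 : ℂ) 1) :
    Complex.exp (uu α z) = phi α z := by
  have h2 := one_sub_ne (z := z) (by simpa using hz)
  have h3 := T0_ne (one_le_inv h0 h1) hz
  rw [uu, Complex.exp_add, phi, Complex.cpow_def_of_ne_zero h3]
  congr 1
  · rw [show (-2 : ℂ) * Complex.log (1 - z) = -(Complex.log (1 - z) + Complex.log (1 - z)) by ring,
      Complex.exp_neg, Complex.exp_add, Complex.exp_log h2, pow_two]
  · rw [mul_comm]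

lemma hasDerivAt_uu (h0 : 0 < α) (h1 : α < 1) {z : ℂ} (hz : z ∈ ball (0 : ℂ) 1) :
    ∃ u' : ℂ, HasDerivAt (uu α) u' z ∧ z * u' = q0 α⁻¹ z - 1 := by
  have hm := one_le_inv h0 h1
  have hz' : ‖z‖ < 1 := by simpa using hz
  have h2 := one_sub_ne hz'
  have h3 := T0_ne hm hz
  have d1 : HasDerivAt (fun z : ℂ => 1 - z) (-1) z := by simpa using (hasDerivAt_id z).const_sub 1
  have d2 := (d1.clog (one_sub_slit hz)).const_mul (-2 : ℂ)
  have d3 := (((T0_diff hm).differentiableAt (isOpen_ball.mem_nhds hz)).hasDerivAt.clog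
    (slit_of_re (T0_re hm hz))).const_mul (α : ℂ)
  refine ⟨_, d2.add d3, ?_⟩
  have h4 := T0_ode hm hz'
  have hα0 : (α : ℂ) ≠ 0 := by exact_mod_cast h0.ne'
  have h5 : z * (-2 * (-1 / (1 - z)) + α * (deriv (T0 α⁻¹) z / T0 α⁻¹ z)) =
      2 * z / (1 - z) + α * (z * deriv (T0 α⁻¹) z) / T0 α⁻¹ z := by
    field_simp
  rw [h5, h4, q0]
  have h6 : (α : ℂ) * (((α⁻¹ : ℝ) : ℂ) * (1 - mob z * T0 α⁻¹ z)) = 1 - mob z * T0 α⁻¹ z := by
    push_cast
    field_simp
  rw [h6]
  unfold mob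
  generalize T0 α⁻¹ z = τ at h3
  field_simp
  ring

lemma phi_ode (h0 : 0 < α) (h1 : α < 1) {z : ℂ} (hz : z ∈ ball (0 : ℂ) 1) :
    z * deriv (phi α) z = (q0 α⁻¹ z - 1) * phi α z := by
  obtain ⟨u', hu, hu2⟩ := hasDerivAt_uu h0 h1 hz
  have h2 := hu.cexp
  have h3 : phi α =ᶠ[𝓝 z] (fun w => Complex.exp (uu α w)) := by
    filter_upwards [isOpen_ball.mem_nhds hz] with w hw
    exact (exp_uu h0 h1 hw).symm
  have h4 : deriv (phi α) z = Complex.exp (uu α z) * u' := by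
    rw [h3.deriv_eq]; exact h2.deriv
  rw [h4, exp_uu h0 h1 hz]
  linear_combination phi α z * hu2

lemma ext_deriv (h0 : 0 < α) (h1 : α < 1) {z : ℂ} (hz : z ∈ ball (0 : ℂ) 1) :
    deriv (ext α) z = q0 α⁻¹ z * phi α z := by
  have h2 := ((phi_diff h0 h1).differentiableAt (isOpen_ball.mem_nhds hz)).hasDerivAt
  have h3 : HasDerivAt (ext α) (1 * phi α z + z * deriv (phi α) z) z := (hasDerivAt_id z).mul h2
  rw [h3.deriv, phi_ode h0 h1 hz]
  ring

lemma ext_diff (h0 : 0 < α) (h1 : α < 1) : DifferentiableOn ℂ (ext α) (ball 0 1) :=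
  differentiableOn_id.mul (phi_diff h0 h1)

theorem ext_inj (h0 : 0 < α) (h1 : α < 1) : InjOn (ext α) (ball 0 1) := by
  have hm := one_le_inv h0 h1
  intro a ha b hb hab
  have key : ∀ c ∈ ball (0 : ℂ) 1, ext α c = 0 → c = 0 := by
    intro c hc h
    rcases mul_eq_zero.mp h with h | h
    · exact h
    · exact absurd h (phi_ne h0 h1 hc)
  by_cases ha0 : a = 0
  · rw [ha0] at hab ⊢
    have : ext α b = 0 := by rw [← hab]; simp [ext]
    exact (key b hb this).symm
  by_cases hb0 : b = 0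
  · rw [hb0] at hab ⊢
    have : ext α a = 0 := by rw [hab]; simp [ext]
    exact key a ha this
  -- logarithmic coordinates
  have hexp : Complex.exp (Complex.log a + uu α a) = Complex.exp (Complex.log b + uu α b) := by
    rw [Complex.exp_add, Complex.exp_add, Complex.exp_log ha0, Complex.exp_log hb0,
      exp_uu h0 h1 ha, exp_uu h0 h1 hb]
    exact hab
  rw [Complex.exp_eq_exp_iff_exists_int] at hexp
  obtain ⟨k, hk⟩ := hexp
  set la := Complex.log a with hla
  set lb := Complex.log b + k * (2 * Real.pi * I) with hlb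
  have ela : Complex.exp la = a := Complex.exp_log ha0
  have elb : Complex.exp lb = b := by
    rw [hlb, Complex.exp_add, Complex.exp_log hb0, Complex.exp_int_mul_two_pi_mul_I, mul_one]
  have hS : Convex ℝ {z : ℂ | z.re < 0} := convex_halfSpace_re_lt 0
  have hexpball : ∀ z : ℂ, z.re < 0 → Complex.exp z ∈ ball (0 : ℂ) 1 := by
    intro z hz
    rw [mem_ball_zero_iff, Complex.norm_exp]
    rw [← Real.exp_zero]; exact Real.exp_lt_exp.mpr hz
  have hder : ∀ z ∈ {z : ℂ | z.re < 0}, HasDerivAt (fun z => z + uu α (Complex.exp z))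
      (q0 α⁻¹ (Complex.exp z)) z := by
    intro z hz
    obtain ⟨u', hu, hu2⟩ := hasDerivAt_uu h0 h1 (hexpball z hz)
    have h2 := (hasDerivAt_id z).add (HasDerivAt.comp z hu (Complex.hasDerivAt_exp z))
    refine h2.congr_deriv ?_
    linear_combination hu2
  have hinj := inj_convex hS hder (fun z hz => q0_re hm (hexpball z hz))
  have hre : ∀ {w l : ℂ}, w ∈ ball (0 : ℂ) 1 → Complex.exp l = w → l.re < 0 := by
    intro w l hw hl
    by_contra hneg
    push Not at hneg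
    have h2 : (1 : ℝ) ≤ Real.exp l.re := Real.one_le_exp hneg
    rw [← Complex.norm_exp, hl] at h2
    have h3 : ‖w‖ < 1 := by simpa using hw
    linarith
  have hlab : la = lb := by
    apply hinj (hre ha ela) (hre hb elb)
    simp only [ela, elb]
    rw [hk, hlb]; ring
  rw [← ela, ← elb, hlab]

theorem ext_mem (h0 : 0 < α) (h1 : α < 1) : InM α (ext α) := by
  have hm := one_le_inv h0 h1
  have hα0 : (α : ℂ) ≠ 0 := by exact_mod_cast h0.ne'
  refine ⟨ext_diff h0 h1, ext_inj h0 h1, by simp [ext], ?_, ?_⟩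
  · rw [ext_deriv h0 h1 (by simp), q0_zero hm, phi_zero h0 h1, mul_one]
  · intro z hz hz0
    have h2 := (logder (phi_diff h0 h1) (q0_diff hm) (f := ext α) (fun z => rfl)
      (fun z hz => ext_deriv h0 h1 hz) (fun z hz => phi_ne h0 h1 hz) (fun z hz => q0_ne hm hz) hz).2
    have h3 : z * deriv (ext α) z / ext α z = q0 α⁻¹ z := by
      have := phi_ne h0 h1 hz
      rw [ext_deriv h0 h1 hz, ext]; field_simp
    rw [h2, h3, q0_ode hm hz]
    have hq := q0_ne hm hz
    have h4 : (α : ℂ) * (1 + (q0 α⁻¹ z - 1 + ((α⁻¹ : ℝ) : ℂ) * (q0 α⁻¹ z * (mob z - q0 α⁻¹ z)) / q0 α⁻¹ z)) +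
        (1 - α) * q0 α⁻¹ z = mob z := by
      push_cast
      generalize q0 α⁻¹ z = y at hq
      field_simp
      ring
    rw [h4]
    exact mob_re (by simpa using hz)

lemma ps_geom : PS (fun z => (1 - z)⁻¹) (fun _ => 1) := by
  intro z hz
  simpa using hasSum_geometric_of_norm_lt_one hz

lemma ps_koebe : PS (fun z => ((1 - z) ^ 2)⁻¹) (fun n => (n : ℂ) + 1) := by
  have h := ps_geom.mul ps_geom
  have h2 : conv (fun _ => (1 : ℂ)) (fun _ => 1) = (fun n : ℕ => (n : ℂ) + 1) := by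
    funext n; simp [conv]
  rw [h2] at h
  refine ps_congr h (fun z _ => ?_)
  rw [pow_two, mul_inv]

lemma ext_coeff_bd (h0 : 0 < α) (h1 : α < 1) (n : ℕ) :
    coeff (ext α) (n + 1) = ((bd α⁻¹ n / (n + 1) : ℝ) : ℂ) := by
  have hm := one_le_inv h0 h1
  have hα0 : (α : ℂ) ≠ 0 := by exact_mod_cast h0.ne'
  have h2 : PS (deriv (ext α)) (conv (coeff (G α⁻¹)) (fun n => (n : ℂ) + 1)) := by
    refine ps_congr ((PS.of_diff (G_diff hm)).mul ps_koebe) (fun z hz => ?_)
    rw [ext_deriv h0 h1 hz, phi]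
    have hT := T0_ne hm hz
    have h3 : (T0 α⁻¹ z) ^ (α : ℂ) = (q0 α⁻¹ z) ^ (-(α : ℂ)) := by
      rw [q0, Complex.inv_cpow _ _ (slitPlane_arg_ne_pi (slit_of_re (T0_re hm hz))),
        Complex.cpow_neg, inv_inv]
    have h4 : G α⁻¹ z = q0 α⁻¹ z * (q0 α⁻¹ z) ^ (-(α : ℂ)) := by
      have hq := q0_ne hm hz
      rw [G]
      have : (((1 - (α⁻¹)⁻¹ : ℝ)) : ℂ) = 1 + (-(α : ℂ)) := by rw [inv_inv]; push_cast; ring
      rw [this, Complex.cpow_add _ _ hq, Complex.cpow_one]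
    rw [h3, h4]; ring
  have h5 : coeff (deriv (ext α)) n = (bd α⁻¹ n : ℂ) := by
    rw [ps_coeff h2 n]
    unfold conv bd
    rw [Finset.Nat.sum_antidiagonal_eq_sum_range_succ (fun i j => coeff (G α⁻¹) i * ((j : ℂ) + 1))]
    push_cast
    refine Finset.sum_congr rfl (fun j _ => ?_)
    rw [gam_spec hm]
  rw [coeff_deriv] at h5
  have h6 : ((n : ℂ) + 1) ≠ 0 := by exact_mod_cast Nat.succ_ne_zero n
  push_cast
  rw [eq_div_iff h6, ← h5]; ring

lemma ext_coeff_ac (h0 : 0 < α) (h1 : α < 1) (n : ℕ) : coeff (ext α) n = (ac α n : ℝ) := by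
  have hm := one_le_inv h0 h1
  have hi : (α⁻¹)⁻¹ = α := inv_inv α
  have hQ : ∀ n, coeff (q0 α⁻¹) n = (qc α n : ℝ) := by
    intro n; rw [coeff_q0 hm, hi]
  have h2 := ps_theta (ext_diff h0 h1)
  have h3 : PS (fun z => z * deriv (ext α) z) (conv (coeff (q0 α⁻¹)) (coeff (ext α))) := by
    refine ps_congr ((PS.of_diff (q0_diff hm)).mul (PS.of_diff (ext_diff h0 h1))) (fun z hz => ?_)
    rw [ext_deriv h0 h1 hz, ext]; ring
  have h4 := PS.unique h2 h3
  induction n using Nat.strong_induction_on with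
  | _ n ih =>
    match n, ih with
    | 0, _ => rw [coeff_zero_eq, ac]; simp [ext]
    | 1, _ =>
      rw [ac]
      have h5 := coeff_deriv (ext α) 0
      rw [coeff_zero_eq, ext_deriv h0 h1 (by simp), q0_zero hm, phi_zero h0 h1] at h5
      simp at h5
      simpa using h5.symm
    | n + 2, ih =>
      have h5 := congrFun h4 (n + 2)
      unfold conv at h5
      rw [antidiag_expand (fun i j => coeff (q0 α⁻¹) i * coeff (ext α) j)] at h5
      have e0 : coeff (ext α) 0 = 0 := by rw [coeff_zero_eq]; simp [ext]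
      have e1 : coeff (q0 α⁻¹) 0 = 1 := by rw [coeff_zero_eq, q0_zero hm]
      rw [e0, e1, mul_zero, add_zero, one_mul] at h5
      have h6 : ∑ i ∈ Finset.range (n + 1), coeff (q0 α⁻¹) (i + 1) * coeff (ext α) (n + 1 - i) =
          ((∑ i : Fin (n + 1), qc α (i + 1) * ac α (n + 1 - i) : ℝ) : ℂ) := by
        rw [Fin.sum_univ_eq_sum_range (fun i => qc α (i + 1) * ac α (n + 1 - i)) (n + 1)]
        push_cast
        refine Finset.sum_congr rfl (fun i hi => ?_)
        rw [Finset.mem_range] at hi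
        rw [hQ, ih (n + 1 - i) (by omega)]
      rw [h6] at h5
      rw [ac]
      have h7 : ((n : ℂ) + 1) ≠ 0 := by exact_mod_cast Nat.succ_ne_zero n
      rw [Complex.ofReal_div, eq_div_iff (by exact_mod_cast Nat.succ_ne_zero n)]
      push_cast at h5 ⊢
      linear_combination h5

theorem main (h0 : 0 < α) (h1 : α < 1) {f : ℂ → ℂ} (hf : InM α f) {n : ℕ} (hn : 1 ≤ n) :
    ‖coeff f n‖ ≤ ac α n := by
  obtain ⟨k, rfl⟩ : ∃ k, n = k + 1 := ⟨n - 1, by omega⟩
  have h2 := upper h0 h1 hf k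
  have h3 := ext_coeff_bd h0 h1 k
  rw [ext_coeff_ac h0 h1] at h3
  have h4 : ac α (k + 1) = bd α⁻¹ k / (k + 1) := by exact_mod_cast h3
  rw [h4]; exact h2

lemma ac_nonneg (h0 : 0 < α) (h1 : α < 1) (n : ℕ) : 0 ≤ ac α n := by
  rcases Nat.eq_zero_or_pos n with h | h
  · rw [h, ac]
  · exact (norm_nonneg _).trans (main h0 h1 (ext_mem h0 h1) h)

end

end Pool.Agent.K4H52.AC
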