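import Pool.Agent.K4H52.AC.Kern2

/-!
# `Re (T'/T) ≤ 0` in the right half plane
-/

open Complex MeasureTheory Set Filter Topology Metric

namespace Pool.Agent.K4H52.AC

/-- the Cayley map -/
noncomputable def mob (z : ℂ) : ℂ := (1 + z) / (1 - z)

lemma one_sub_ne {z : ℂ} (hz : ‖z‖ < 1) : 1 - z ≠ 0 := by
  intro h
  have : z = 1 := (sub_eq_zero.mp h).symm
  rw [this] at hz; simp at hz

lemma mob_re {z : ℂ} (hz : ‖z‖ < 1) : 0 < (mob z).re := by
  have h0 := one_sub_ne hz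
  have h1 : Complex.normSq z < 1 := by
    rw [Complex.normSq_eq_norm_sq]; nlinarith [norm_nonneg z]
  rw [Complex.normSq_apply] at h1
  have h2 : 0 < Complex.normSq (1 - z) := Complex.normSq_pos.mpr h0
  unfold mob
  rw [Complex.div_re, ← add_div]
  apply div_pos _ h2
  simp
  nlinarith

lemma hasDerivAt_mob {z : ℂ} (hz : ‖z‖ < 1) : HasDerivAt mob (2 / (1 - z) ^ 2) z := by
  have h0 := one_sub_ne hz
  have h1 : HasDerivAt (fun z : ℂ => 1 + z) 1 z := by simpa using (hasDerivAt_id z).const_add 1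
  have h2 : HasDerivAt (fun z : ℂ => 1 - z) (-1) z := by simpa using (hasDerivAt_id z).const_sub 1
  refine (h1.div h2 h0).congr_deriv ?_
  field_simp
  ring

lemma mob_zero : mob 0 = 1 := by simp [mob]

lemma mob_sq_sub {z : ℂ} (hz : ‖z‖ < 1) : (mob z) ^ 2 - 1 = 4 * z / (1 - z) ^ 2 := by
  have h0 := one_sub_ne hz
  unfold mob
  field_simp
  ring

lemma one_add_mob {z : ℂ} (hz : ‖z‖ < 1) : 1 + mob z = 2 / (1 - z) := by
  have h0 := one_sub_ne hz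
  unfold mob
  field_simp
  ring

/-- the inverse Cayley map -/
noncomputable def cay (w : ℂ) : ℂ := (w - 1) / (w + 1)

lemma add_one_ne {w : ℂ} (hw : 0 < w.re) : w + 1 ≠ 0 := by
  apply ne_zero_of_re; simp; linarith

lemma cay_norm {w : ℂ} (hw : 0 < w.re) : ‖cay w‖ < 1 := by
  have h0 := add_one_ne hw
  unfold cay
  rw [norm_div, div_lt_one (norm_pos_iff.mpr h0)]
  apply lt_of_pow_lt_pow_left₀ 2 (norm_nonneg _)
  rw [← Complex.normSq_eq_norm_sq, ← Complex.normSq_eq_norm_sq, Complex.normSq_apply,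
    Complex.normSq_apply]
  simp
  nlinarith

lemma mob_cay {w : ℂ} (hw : 0 < w.re) : mob (cay w) = w := by
  have h0 := add_one_ne hw
  unfold mob cay
  have h1 : 1 - (w - 1) / (w + 1) = 2 / (w + 1) := by field_simp; ring
  rw [h1]
  field_simp
  ring

lemma cay_mob {z : ℂ} (hz : ‖z‖ < 1) : cay (mob z) = z := by
  have h0 := one_sub_ne hz
  have h1 := one_add_mob hz
  unfold cay
  rw [add_comm (mob z) 1, h1]
  unfold mob
  field_simp
  ring

lemma differentiableOn_T {m : ℝ} (hm : 1 ≤ m) : DifferentiableOn ℂ (T m) {w : ℂ | 0 < w.re} :=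
  fun w hw => (hasDerivAt_T hm hw).differentiableAt.differentiableWithinAt

lemma isOpen_rhp : IsOpen {w : ℂ | 0 < w.re} := isOpen_lt continuous_const Complex.continuous_re

lemma differentiableOn_T' {m : ℝ} (hm : 1 ≤ m) : DifferentiableOn ℂ (T' m) {w : ℂ | 0 < w.re} := by
  have h := (differentiableOn_T hm).deriv isOpen_rhp
  exact h.congr (fun w hw => ((hasDerivAt_T hm hw).deriv).symm)

lemma out_bound {m : ℝ} (hm : 1 ≤ m) {ζ : ℂ} {ρ : ℝ} (hρ : ‖ζ‖ = ρ) (h0 : 1 / 2 ≤ ρ) (h1 : ρ < 1) :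
    (T' m (mob ζ) / T m (mob ζ)).re ≤ 22 * m * (1 - ρ) := by
  have hz : ‖ζ‖ < 1 := by rw [hρ]; exact h1
  have hw := mob_re hz
  have hsub := one_sub_ne hz
  have hζ : ζ ≠ 0 := by
    intro h; rw [h] at hρ; simp at hρ; linarith
  have hT := T_ne hm hw
  set q : ℂ := (T m (mob ζ))⁻¹ with hq
  have hqr : 0 < q.re := inv_re_pos (T_re_pos hm hw)
  have hqn : ‖q‖ * ‖1 - ζ‖ ≤ 4 := by
    have h2 := T_lower hm hw
    rw [one_add_mob hz, norm_div] at h2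
    have h3 : 0 < ‖1 - ζ‖ := norm_pos_iff.mpr hsub
    have h4 : 0 < ‖T m (mob ζ)‖ := norm_pos_iff.mpr hT
    rw [hq, norm_inv]
    have h5 : ‖(2 : ℂ)‖ = 2 := by simp
    rw [h5] at h2
    have h6 : ‖1 - ζ‖ ≤ 4 * ‖T m (mob ζ)‖ := by
      have : 2 * ‖T m (mob ζ)‖ * (2 / ‖1 - ζ‖) = 4 * ‖T m (mob ζ)‖ / ‖1 - ζ‖ := by ring
      rw [this, le_div_iff₀ h3] at h2
      linarith
    rw [inv_mul_le_iff₀ h4]
    linarith
  have h1ρ : 1 - ρ ≤ ‖1 - ζ‖ := by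
    have := norm_sub_norm_le (1 : ℂ) ζ
    rw [hρ] at this; simpa using this
  have hqn2 : ‖q‖ * (1 - ρ) ≤ 4 := by
    have := mul_le_mul_of_nonneg_left h1ρ (norm_nonneg q)
    linarith
  have hρp : 0 < ρ := by linarith
  -- formula
  have hform : T' m (mob ζ) / T m (mob ζ) = (m / 2 : ℝ) * (q * (ζ⁻¹ - 2 + ζ) - (ζ⁻¹ - ζ)) := by
    have h2 := ode_T hm hw
    rw [mob_sq_sub hz] at h2
    have h3 : T' m (mob ζ) = 2 * m * (1 - mob ζ * T m (mob ζ)) * (1 - ζ) ^ 2 / (4 * ζ) := by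
      rw [eq_div_iff (by simp [hζ])]
      have h4 : T' m (mob ζ) * (4 * ζ) = (4 * ζ / (1 - ζ) ^ 2 * T' m (mob ζ)) * (1 - ζ) ^ 2 := by
        field_simp
      rw [h4, h2]
    have hW : mob ζ * (1 - ζ) ^ 2 = 1 - ζ ^ 2 := by
      unfold mob
      field_simp
      ring
    rw [h3, hq]
    generalize T m (mob ζ) = τ at *
    generalize mob ζ = W at *
    have h5 : 2 * (m : ℂ) * (1 - W * τ) * (1 - ζ) ^ 2 / (4 * ζ) / τ =
        m * ((1 - ζ) ^ 2 - τ * (W * (1 - ζ) ^ 2)) / (2 * ζ * τ) := by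
      field_simp
      ring
    rw [h5, hW]
    push_cast
    field_simp
    ring
  rw [hform, Complex.re_ofReal_mul]
  have hns : ζ.re * ζ.re + ζ.im * ζ.im = ρ ^ 2 := by
    rw [← hρ, ← Complex.normSq_eq_norm_sq, Complex.normSq_apply]
  have hinvre : (ζ⁻¹).re = ζ.re / ρ ^ 2 := by
    rw [Complex.inv_re, Complex.normSq_eq_norm_sq, hρ]
  have hinvim : (ζ⁻¹).im = -ζ.im / ρ ^ 2 := by
    rw [Complex.inv_im, Complex.normSq_eq_norm_sq, hρ]
  have e : (q * (ζ⁻¹ - 2 + ζ) - (ζ⁻¹ - ζ)).re =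
      q.re * (ζ.re * (1 + 1 / ρ ^ 2) - 2) + q.im * ζ.im * (1 / ρ ^ 2 - 1) -
        ζ.re * (1 / ρ ^ 2 - 1) := by
    simp only [Complex.sub_re, Complex.mul_re, Complex.add_re, Complex.add_im, Complex.sub_im,
      hinvre, hinvim]
    have : (2 : ℂ).re = 2 := rfl
    have h' : (2 : ℂ).im = 0 := rfl
    rw [this, h']
    ring
  rw [e]
  have hxabs : |ζ.re| ≤ ρ := by rw [← hρ]; exact Complex.abs_re_le_norm ζ
  have hyabs : |ζ.im| ≤ ‖1 - ζ‖ := by
    have := Complex.abs_im_le_norm (1 - ζ)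
    simpa using this
  have hρ2 : 1 / ρ ^ 2 ≤ 4 := by
    rw [div_le_iff₀ (by positivity)]; nlinarith
  have hk : 1 / ρ ^ 2 - 1 = (1 - ρ) * ((1 + ρ) / ρ ^ 2) := by field_simp; ring
  have hk1 : 0 ≤ 1 / ρ ^ 2 - 1 := by
    rw [hk]; apply mul_nonneg (by linarith); positivity
  have hk2 : 1 / ρ ^ 2 - 1 ≤ 8 * (1 - ρ) := by
    rw [hk]
    have : (1 + ρ) / ρ ^ 2 ≤ 8 := by
      rw [div_le_iff₀ (by positivity)]; nlinarith
    nlinarith
  -- term 1
  have t1 : q.re * (ζ.re * (1 + 1 / ρ ^ 2) - 2) ≤ 8 * (1 - ρ) := by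
    have h2 : ζ.re * (1 + 1 / ρ ^ 2) - 2 ≤ (1 - ρ) * ((1 - ρ) / ρ) := by
      have h3 : ζ.re * (1 + 1 / ρ ^ 2) ≤ ρ * (1 + 1 / ρ ^ 2) :=
        mul_le_mul_of_nonneg_right ((le_abs_self _).trans hxabs) (by positivity)
      have h4 : ρ * (1 + 1 / ρ ^ 2) - 2 = (1 - ρ) * ((1 - ρ) / ρ) := by
        field_simp; ring
      linarith
    have h5 : q.re ≤ ‖q‖ := Complex.re_le_norm q
    have h6 : 0 ≤ (1 - ρ) * ((1 - ρ) / ρ) := by
      apply mul_nonneg (by linarith); exact div_nonneg (by linarith) hρp.le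
    calc q.re * (ζ.re * (1 + 1 / ρ ^ 2) - 2) ≤ q.re * ((1 - ρ) * ((1 - ρ) / ρ)) :=
          mul_le_mul_of_nonneg_left h2 hqr.le
      _ ≤ ‖q‖ * ((1 - ρ) * ((1 - ρ) / ρ)) := mul_le_mul_of_nonneg_right h5 h6
      _ = (‖q‖ * (1 - ρ)) * ((1 - ρ) / ρ) := by ring
      _ ≤ 4 * ((1 - ρ) / ρ) := mul_le_mul_of_nonneg_right hqn2 (div_nonneg (by linarith) hρp.le)
      _ ≤ 8 * (1 - ρ) := by
          rw [mul_div_assoc', div_le_iff₀ hρp]; nlinarith
  have t2 : q.im * ζ.im * (1 / ρ ^ 2 - 1) ≤ 32 * (1 - ρ) := by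
    have h2 : q.im * ζ.im ≤ 4 := by
      have h3 : |q.im * ζ.im| ≤ ‖q‖ * ‖1 - ζ‖ := by
        rw [abs_mul]
        exact mul_le_mul (Complex.abs_im_le_norm q) hyabs (abs_nonneg _) (norm_nonneg _)
      exact (le_abs_self _).trans (h3.trans hqn)
    calc q.im * ζ.im * (1 / ρ ^ 2 - 1) ≤ 4 * (1 / ρ ^ 2 - 1) :=
          mul_le_mul_of_nonneg_right h2 hk1
      _ ≤ 32 * (1 - ρ) := by linarith
  have t3 : -(ζ.re * (1 / ρ ^ 2 - 1)) ≤ 4 * (1 - ρ) := by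
    have h2 : -ζ.re ≤ ρ := by have := (abs_le.mp hxabs).1; linarith
    have h3 : -ζ.re * (1 / ρ ^ 2 - 1) ≤ ρ * (1 / ρ ^ 2 - 1) := mul_le_mul_of_nonneg_right h2 hk1
    have h4 : ρ * (1 / ρ ^ 2 - 1) ≤ 4 * (1 - ρ) := by
      rw [hk]
      have : ρ * ((1 - ρ) * ((1 + ρ) / ρ ^ 2)) = (1 - ρ) * ((1 + ρ) / ρ) := by field_simp
      rw [this]
      have : (1 + ρ) / ρ ≤ 4 := by rw [div_le_iff₀ hρp]; linarith
      nlinarith
    linarith
  have hm2 : 0 < m / 2 := by linarith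
  have htot : q.re * (ζ.re * (1 + 1 / ρ ^ 2) - 2) + q.im * ζ.im * (1 / ρ ^ 2 - 1) -
        ζ.re * (1 / ρ ^ 2 - 1) ≤ 44 * (1 - ρ) := by linarith
  calc m / 2 * (q.re * (ζ.re * (1 + 1 / ρ ^ 2) - 2) + q.im * ζ.im * (1 / ρ ^ 2 - 1) -
        ζ.re * (1 / ρ ^ 2 - 1)) ≤ m / 2 * (44 * (1 - ρ)) := mul_le_mul_of_nonneg_left htot hm2.le
    _ = 22 * m * (1 - ρ) := by ring

theorem out {m : ℝ} (hm : 1 ≤ m) {w : ℂ} (hw : 0 < w.re) : (T' m w / T m w).re ≤ 0 := by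
  set ζ₀ := cay w with hζ₀
  have hζn : ‖ζ₀‖ < 1 := cay_norm hw
  have hwm : mob ζ₀ = w := mob_cay hw
  have key : ∀ ρ : ℝ, ‖ζ₀‖ < ρ → 1 / 2 ≤ ρ → ρ < 1 → (T' m w / T m w).re ≤ 22 * m * (1 - ρ) := by
    intro ρ h0 h1 h2
    have hsub : closedBall (0 : ℂ) ρ ⊆ ball 0 1 := closedBall_subset_ball h2
    have hF : DifferentiableOn ℂ (fun ζ => Complex.exp (T' m (mob ζ) / T m (mob ζ))) (ball 0 1) := by
      have hmo : DifferentiableOn ℂ mob (ball 0 1) := fun z hz =>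
        (hasDerivAt_mob (by simpa using hz)).differentiableAt.differentiableWithinAt
      have hmaps : MapsTo mob (ball 0 1) {w : ℂ | 0 < w.re} := fun z hz =>
        mob_re (by simpa using hz)
      refine DifferentiableOn.cexp (DifferentiableOn.div ((differentiableOn_T' hm).comp hmo hmaps)
        ((differentiableOn_T hm).comp hmo hmaps) (fun z hz => T_ne hm (hmaps hz)))
    have hd : DiffContOnCl ℂ (fun ζ => Complex.exp (T' m (mob ζ) / T m (mob ζ))) (ball 0 ρ) :=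
      (hF.mono hsub).diffContOnCl_ball subset_rfl
    have h3 := Complex.norm_le_of_forall_mem_frontier_norm_le (isBounded_ball) hd
      (C := Real.exp (22 * m * (1 - ρ))) (fun z hz => by
        have hz' : ‖z‖ = ρ := by
          have := frontier_ball_subset_sphere hz
          simpa using this
        rw [Complex.norm_exp]
        exact Real.exp_le_exp.mpr (out_bound hm hz' h1 h2))
      (z := ζ₀) (subset_closure (by simpa using h0))
    rw [Complex.norm_exp, hwm] at h3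
    exact Real.exp_le_exp.mp h3
  have hlim : Tendsto (fun ρ : ℝ => 22 * m * (1 - ρ)) (𝓝[<] 1) (𝓝 0) := by
    have : Tendsto (fun ρ : ℝ => 22 * m * (1 - ρ)) (𝓝 1) (𝓝 (22 * m * (1 - 1))) := by
      apply Continuous.tendsto; fun_prop
    rw [sub_self, mul_zero] at this
    exact this.mono_left nhdsWithin_le_nhds
  refine ge_of_tendsto hlim ?_
  have hmx : max ‖ζ₀‖ (1 / 2) < 1 := max_lt hζn (by norm_num)
  filter_upwards [Ioo_mem_nhdsLT hmx] with ρ hρ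
  exact key ρ (lt_of_le_of_lt (le_max_left _ _) hρ.1) (le_of_lt (lt_of_le_of_lt (le_max_right _ _) hρ.1))
    hρ.2

end Pool.Agent.K4H52.AC
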