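import Pool.Agent.K4H52.AC.Ext

/-!
# The upper bound
-/

open Complex MeasureTheory Set Filter Topology Metric
open Pool.Agent.Helper610.Bohr

namespace Pool.Agent.K4H52.AC

lemma coeff_deriv (f : ℂ → ℂ) (n : ℕ) : coeff (deriv f) n = ((n : ℂ) + 1) * coeff f (n + 1) := by
  simp only [coeff]
  rw [← iteratedDeriv_succ', Nat.factorial_succ]
  have h4 : ((n : ℂ) + 1) ≠ 0 := by exact_mod_cast Nat.succ_ne_zero n
  have h5 : (n.factorial : ℂ) ≠ 0 := by exact_mod_cast n.factorial_ne_zero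
  push_cast
  field_simp

/-- the bound -/
noncomputable def bd (m : ℝ) (n : ℕ) : ℝ :=
  ∑ j ∈ Finset.range (n + 1), gam m j * (((n - j : ℕ) : ℝ) + 1)

theorem upper {α : ℝ} (h0 : 0 < α) (h1 : α < 1) {f : ℂ → ℂ} (hf : InM α f) (n : ℕ) :
    ‖coeff f (n + 1)‖ ≤ bd α⁻¹ n / (n + 1) := by
  have hm : 1 ≤ α⁻¹ := by rw [one_le_inv₀ h0]; exact h1.le
  set m := α⁻¹ with hmdef
  have hα0 : (α : ℂ) ≠ 0 := by exact_mod_cast h0.ne'
  have hmα : (m : ℂ) * α = 1 := by
    rw [hmdef]; push_cast; exact inv_mul_cancel₀ hα0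
  have hmi : m⁻¹ = α := by rw [hmdef, inv_inv]
  have b0 : (0 : ℂ) ∈ ball (0 : ℂ) 1 := by simp
  set φ := dslope f 0 with hφ
  have hφd : DifferentiableOn ℂ φ (ball 0 1) := dslope_diff hf.diff
  have hfφ : ∀ z, f z = z * φ z := by
    intro z
    have := eq_mul_dslope (f := f) z
    rw [hf.zero, zero_add] at this
    exact this
  have hφ1 : φ 0 = 1 := by rw [hφ, dslope_same, hf.one]
  have hφ0 : ∀ z ∈ ball (0 : ℂ) 1, φ z ≠ 0 := by
    intro z hz h
    have h2 : f z = f 0 := by rw [hfφ z, h, mul_zero, hf.zero]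
    have h3 := hf.inj hz b0 h2
    rw [h3, hφ1] at h
    exact one_ne_zero h
  have hf' : ∀ z ∈ ball (0 : ℂ) 1, deriv f z ≠ 0 := fun z hz =>
    deriv_ne_zero_of_injOn isOpen_ball hf.diff hf.inj hz
  set q : ℂ → ℂ := fun z => deriv f z / φ z with hq
  have hqd : DifferentiableOn ℂ q (ball 0 1) := (hf.diff.deriv isOpen_ball).div hφd hφ0
  have hqφ : ∀ z ∈ ball (0 : ℂ) 1, deriv f z = q z * φ z := by
    intro z hz
    have := hφ0 z hz
    rw [hq]; field_simp
  have hq1 : q 0 = 1 := by rw [hq]; simp only; rw [hφ1, hf.one, div_one]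
  have hq0 : ∀ z ∈ ball (0 : ℂ) 1, q z ≠ 0 := fun z hz => div_ne_zero (hf' z hz) (hφ0 z hz)
  set p : ℂ → ℂ := fun z => q z + α * (z * deriv q z / q z) with hp
  have hpd : DifferentiableOn ℂ p (ball 0 1) := by
    refine hqd.add ((DifferentiableOn.div ?_ hqd hq0).const_mul _)
    exact differentiableOn_id.mul (hqd.deriv isOpen_ball)
  have hp1 : p 0 = 1 := by rw [hp]; simp [hq1]
  have hpr : ∀ z ∈ ball (0 : ℂ) 1, 0 < (p z).re := by
    intro z hz
    by_cases hz0 : z = 0
    · rw [hz0, hp1]; simp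
    · have h2 := hf.pos z hz hz0
      have h3 := (logder hφd hqd hfφ hqφ hφ0 hq0 hz).2
      have h4 : z * deriv f z / f z = q z := by
        have := hφ0 z hz
        rw [hfφ z, hq]; field_simp
      rw [h3, h4] at h2
      have h5 : (α : ℂ) * (1 + (q z - 1 + z * deriv q z / q z)) + (1 - α) * q z = p z := by
        rw [hp]; ring
      rwa [h5] at h2
  -- the reciprocal
  have hFd : DifferentiableOn ℂ (fun z => (q z)⁻¹) (ball 0 1) := hqd.inv hq0
  have hode : ∀ z ∈ ball (0 : ℂ) 1, z * deriv (fun z => (q z)⁻¹) z = m * (1 - p z * (q z)⁻¹) := by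
    intro z hz
    have h2 := (hqd.differentiableAt (isOpen_ball.mem_nhds hz)).hasDerivAt.inv (hq0 z hz)
    have h3 : deriv (fun z => (q z)⁻¹) z = -deriv q z / q z ^ 2 := h2.deriv
    have h4 := hq0 z hz
    rw [h3, hp]
    simp only
    have h5 : (m : ℂ) * (1 - (q z + α * (z * deriv q z / q z)) * (q z)⁻¹) =
        -(m * α) * (z * deriv q z / q z ^ 2) := by
      field_simp
      ring
    rw [h5, hmα]
    ring
  obtain ⟨ω, hωd, hω0, hωm, hω⟩ := subord hm hpd hpr hp1 hFd (by simp [hq1]) hode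
  have hqω : ∀ z ∈ ball (0 : ℂ) 1, q z = q0 m (ω z) := by
    intro z hz
    rw [q0, ← hω z hz, inv_inv]
  have hqre : ∀ z ∈ ball (0 : ℂ) 1, 0 < (q z).re := by
    intro z hz
    rw [hqω z hz]
    exact q0_re hm (hωm z hz)
  set e : ℂ := ((1 - m⁻¹ : ℝ) : ℂ) with he
  have heα : e = 1 - α := by rw [he, hmi]; push_cast; ring
  set P : ℂ → ℂ := fun z => deriv f z * (q z) ^ (-e) with hP
  have hcd : DifferentiableOn ℂ (fun z => (q z) ^ (-e)) (ball 0 1) :=
    hqd.cpow_const (fun z hz => slit_of_re (hqre z hz))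
  have hPd : DifferentiableOn ℂ P (ball 0 1) := (hf.diff.deriv isOpen_ball).mul hcd
  have hP1 : P 0 = 1 := by rw [hP]; simp [hq1, hf.one]
  have hPode : ∀ z ∈ ball (0 : ℂ) 1, z * deriv P z = (p z - 1) * P z := by
    intro z hz
    have hqz := hq0 z hz
    have hfz := hf' z hz
    have h2 := ((hf.diff.deriv isOpen_ball).differentiableAt (isOpen_ball.mem_nhds hz)).hasDerivAt
    have h3 := HasDerivAt.cpow_const (c := -e)
      ((hqd.differentiableAt (isOpen_ball.mem_nhds hz)).hasDerivAt) (slit_of_re (hqre z hz))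
    have h4 : deriv P z = deriv (deriv f) z * q z ^ (-e) +
        deriv f z * (-e * q z ^ (-e - 1) * deriv q z) := (h2.mul h3).deriv
    rw [h4, Complex.cpow_sub _ _ hqz, Complex.cpow_one]
    have h5 := (logder hφd hqd hfφ hqφ hφ0 hq0 hz).2
    have h6 : z * deriv (deriv f) z = deriv f z * (q z - 1 + z * deriv q z / q z) := by
      rw [← h5]; field_simp
    have h7 : z * (deriv (deriv f) z * q z ^ (-e) +
        deriv f z * (-e * (q z ^ (-e) / q z) * deriv q z)) =
        (z * deriv (deriv f) z) * q z ^ (-e) -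
        deriv f z * (e * (q z ^ (-e)) * (z * deriv q z / q z)) := by
      field_simp
      ring
    rw [h7, h6, hP, hp, heα]
    simp only
    ring
  -- coefficients of `P`
  set c : ℕ → ℂ := fun n => if n = 0 then 0 else coeff p n / 2 with hc
  have hc0 : c 0 = 0 := by simp [hc]
  have hcn : ∀ n, ‖c n‖ ≤ 1 := by
    intro n
    by_cases hn : n = 0
    · rw [hn, hc0]; simp
    · have h2 := carath (PS.of_diff hpd) hpd (fun z hz => (hpr z (by simpa using hz)).le)
        (by rw [coeff_zero_eq, hp1]) hn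
      have h3 : c n = coeff p n / 2 := by simp [hc, hn]
      rw [h3, norm_div]
      have h4 : ‖(2 : ℂ)‖ = 2 := by simp
      rw [h4]; linarith
  have hPS : PS P (coeff P) := PS.of_diff hPd
  have hp1PS : PS (fun z => p z - 1) (fun n => 2 * c n) := by
    have h2 := (PS.of_diff hpd).sub (PS.const 1)
    have h3 : (fun n => coeff p n - (if n = 0 then (1 : ℂ) else 0)) = (fun n => 2 * c n) := by
      funext n
      by_cases hn : n = 0
      · rw [hn, hc0, coeff_zero_eq, hp1]; simp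
      · simp [hc, hn]; ring
    rwa [h3] at h2
  have hrec : ∀ n : ℕ, (n : ℂ) * coeff P n = conv (fun n => 2 * c n) (coeff P) n := by
    have h2 := ps_theta hPd
    have h3 := ps_congr (hp1PS.mul hPS) hPode
    exact fun n => congrFun (PS.unique h2 h3) n
  have hPx : coeff P = conv (sol c) (sol c) := by
    refine rec_unique (c := fun n => 2 * c n) (by simp [hc0]) hrec (sol_sq hc0) ?_
    rw [coeff_zero_eq, hP1]
    simp [conv, sol_zero]
  have hPS2 : PS P (conv (sol c) (sol c)) := by rw [← hPx]; exact hPS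
  have hbound := comp_bound hωd hω0 hωm (PS.of_diff (G_diff hm)) (gam_spec hm) (gam_nonneg hm)
    hPS2 (sol_le hcn) n
  have hfG : ∀ z ∈ ball (0 : ℂ) 1, deriv f z = G m (ω z) * P z := by
    intro z hz
    have h2 : q z ^ e ≠ 0 := by
      rw [Ne, Complex.cpow_eq_zero_iff]
      exact fun h => hq0 z hz h.1
    have h3 : G m (ω z) = q z ^ e := by rw [G, ← hqω z hz]
    rw [h3]
    change deriv f z = q z ^ e * (deriv f z * q z ^ (-e))
    rw [Complex.cpow_neg]
    generalize q z ^ e = y at h2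
    field_simp
  have hcoef : coeff (deriv f) n = coeff (fun z => G m (ω z) * P z) n := by
    have hGω : DifferentiableOn ℂ (fun z => G m (ω z) * P z) (ball 0 1) :=
      ((G_diff hm).comp hωd hωm).mul hPd
    exact ps_coeff (ps_congr (PS.of_diff hGω) hfG) n
  have hn1 : (0 : ℝ) < (n : ℝ) + 1 := by positivity
  rw [le_div_iff₀ hn1]
  have h9 : ‖coeff f (n + 1)‖ * ((n : ℝ) + 1) = ‖coeff (deriv f) n‖ := by
    rw [coeff_deriv, norm_mul, mul_comm]
    congr 1
    have : ((n : ℂ) + 1) = (((n : ℝ) + 1 : ℝ) : ℂ) := by push_cast; ring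
    rw [this, Complex.norm_real, Real.norm_eq_abs, abs_of_pos hn1]
  rw [h9, hcoef]
  exact hbound

end Pool.Agent.K4H52.AC
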